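import Mathlib

/-!
# AXQ: the first Bernoulli function and its distribution relation
-/

namespace Pool.Agent.Helper49.AXQ

/-- the first Bernoulli function `x - [x] - 1/2` -/
def B1 (x : ℚ) : ℚ := Int.fract x - 1 / 2

theorem B1_add_int (x : ℚ) (n : ℤ) : B1 (x + n) = B1 x := by
  unfold B1
  rw [Int.fract_add_intCast]

theorem B1_neg {x : ℚ} (hx : ¬ ∃ n : ℤ, x = n) : B1 (-x) = -B1 x := by
  unfold B1
  rw [Int.fract_neg (fun h => hx ?_)]
  · ring
  · obtain ⟨n, hn⟩ := Int.fract_eq_zero_iff.1 h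
    exact ⟨n, hn.symm⟩

/-- `∑_{j < M} [(n + j) / M] = n` -/
theorem sum_floor {M : ℕ} (hM : 1 ≤ M) (n : ℤ) : ∑ j ∈ Finset.range M, (n + j) / (M : ℤ) = n := by
  have hM0 : (M : ℤ) ≠ 0 := by
    have : M ≠ 0 := by omega
    exact_mod_cast this
  have hstep : ∀ n : ℤ, ∑ j ∈ Finset.range M, (n + 1 + j) / (M : ℤ) =
      ∑ j ∈ Finset.range M, (n + j) / (M : ℤ) + 1 := by
    intro n
    have h1 : ∑ j ∈ Finset.range (M + 1), (n + j) / (M : ℤ) =
        ∑ j ∈ Finset.range M, (n + 1 + j) / (M : ℤ) + n / M := by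
      rw [Finset.sum_range_succ']
      congr 1
      · refine Finset.sum_congr rfl fun j _ => ?_
        congr 1
        push_cast
        ring
      · rw [Nat.cast_zero, add_zero]
    have h2 : ∑ j ∈ Finset.range (M + 1), (n + j) / (M : ℤ) =
        ∑ j ∈ Finset.range M, (n + j) / (M : ℤ) + (n + M) / M := by
      rw [Finset.sum_range_succ]
    have h3 : (n + M) / (M : ℤ) = n / M + 1 := Int.add_ediv_of_dvd_right (dvd_refl _) |>.trans (by
      rw [Int.ediv_self hM0])
    rw [h2, h3] at h1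
    linarith
  have h0 : ∑ j ∈ Finset.range M, ((0 : ℤ) + j) / (M : ℤ) = 0 := by
    refine Finset.sum_eq_zero fun j hj => ?_
    rw [zero_add]
    exact Int.ediv_eq_zero_of_lt (by positivity) (by exact_mod_cast Finset.mem_range.1 hj)
  induction n using Int.induction_on with
  | zero => exact h0
  | succ n ih => rw [hstep, ih]
  | pred n ih =>
    have h := hstep (-(n : ℤ) - 1)
    have e : (-(n : ℤ) - 1 + 1) = -n := by ring
    rw [e, ih] at h
    linarith

/-- the distribution relation -/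
theorem B1_distr {M : ℕ} (hM : 1 ≤ M) (x : ℚ) : ∑ j ∈ Finset.range M, B1 ((x + j) / M) = B1 x := by
  have hM0 : (M : ℚ) ≠ 0 := by
    have : M ≠ 0 := by omega
    exact_mod_cast this
  have hf : ∀ j : ℕ, ⌊(x + j) / (M : ℚ)⌋ = (⌊x⌋ + j) / (M : ℤ) := by
    intro j
    rw [Int.floor_div_natCast, Int.floor_add_natCast]
  have h1 : ∀ j : ℕ, B1 ((x + j) / M) = (x + j) / M - (((⌊x⌋ + j) / (M : ℤ) : ℤ) : ℚ) - 1 / 2 := by
    intro j
    unfold B1
    rw [← hf j]
    rfl
  rw [Finset.sum_congr rfl (fun j _ => h1 j), Finset.sum_sub_distrib, Finset.sum_sub_distrib,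
    ← Int.cast_sum, sum_floor hM, ← Finset.sum_div, Finset.sum_add_distrib, Finset.sum_const,
    Finset.sum_const, Finset.card_range, nsmul_eq_mul, nsmul_eq_mul]
  have h2 : (∑ j ∈ Finset.range M, (j : ℚ)) * 2 = M * (M - 1) := by
    have h := Finset.sum_range_id_mul_two M
    have h' : ((∑ j ∈ Finset.range M, j : ℕ) : ℚ) * 2 = M * ((M - 1 : ℕ) : ℚ) := by exact_mod_cast h
    rw [Nat.cast_sub hM, Nat.cast_one] at h'
    rw [← h']
    push_cast
    ring
  have h3 : (∑ j ∈ Finset.range M, (j : ℚ)) = M * (M - 1) / 2 := by linarith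
  rw [h3]
  unfold B1 Int.fract
  field_simp
  ring

/-- the values of a function of period `1` at `(x + u j) / M`, `u` prime to `M` -/
theorem sum_unit {M : ℕ} (hM : 1 ≤ M) {u : ℤ} (hu : IsCoprime u (M : ℤ)) (x : ℚ) :
    ∑ j ∈ Finset.range M, B1 ((x + u * j) / M) = ∑ j ∈ Finset.range M, B1 ((x + j) / M) := by
  have : NeZero M := ⟨by omega⟩
  have hM0 : (M : ℚ) ≠ 0 := Nat.cast_ne_zero.2 (by omega)
  obtain ⟨G, hG⟩ : ∃ G : ZMod M → ℚ, G = fun j => B1 ((x + (j.val : ℚ)) / M) := ⟨_, rfl⟩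
  have hl : ∀ l : ℤ, B1 ((x + l) / M) = G (l : ZMod M) := by
    intro l
    have h1 : ((M : ℤ) ∣ l - (((l : ZMod M).val : ℕ) : ℤ)) := by
      rw [← ZMod.intCast_zmod_eq_zero_iff_dvd]
      push_cast
      rw [ZMod.natCast_zmod_val, sub_self]
    obtain ⟨w, hw⟩ := h1
    have h2 : (l : ℚ) = (((l : ZMod M).val : ℕ) : ℚ) + M * w := by
      have : l = (((l : ZMod M).val : ℕ) : ℤ) + M * w := by linarith
      exact_mod_cast congrArg (Int.cast : ℤ → ℚ) this
    rw [hG]
    have h3 : (x + l) / (M : ℚ) = (x + (((l : ZMod M).val : ℕ) : ℚ)) / M + w := by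
      rw [h2]
      field_simp
      ring
    rw [h3, B1_add_int]
  have hs : ∀ F : ZMod M → ℚ, ∑ j ∈ Finset.range M, F ((j : ℕ) : ZMod M) = ∑ j : ZMod M, F j := by
    intro F
    refine Finset.sum_bij (fun j _ => ((j : ℕ) : ZMod M)) (fun _ _ => Finset.mem_univ _) ?_ ?_
      (fun _ _ => rfl)
    · intro i hi j hj hij
      rw [Finset.mem_range] at hi hj
      have h := congrArg ZMod.val hij
      rwa [ZMod.val_natCast_of_lt hi, ZMod.val_natCast_of_lt hj] at h
    · intro b _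
      exact ⟨b.val, Finset.mem_range.2 (ZMod.val_lt b), ZMod.natCast_zmod_val b⟩
  have e1 : ∑ j ∈ Finset.range M, B1 ((x + u * j) / M) = ∑ j : ZMod M, G ((u : ZMod M) * j) := by
    rw [← hs (fun j => G ((u : ZMod M) * j))]
    refine Finset.sum_congr rfl fun j _ => ?_
    have h := hl (u * j)
    push_cast at h
    exact h
  have e2 : ∑ j ∈ Finset.range M, B1 ((x + j) / M) = ∑ j : ZMod M, G j := by
    rw [← hs G]
    refine Finset.sum_congr rfl fun j _ => ?_
    have h := hl j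
    push_cast at h
    exact h
  rw [e1, e2]
  have hunit : IsUnit (u : ZMod M) := (ZMod.coe_int_isUnit_iff_isCoprime u M).2 hu.symm
  obtain ⟨w, hw⟩ := hunit
  rw [← hw]
  exact Equiv.sum_comp (Units.mulLeft w) G

end Pool.Agent.Helper49.AXQ
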