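import Pool.Agent.Helper49.AXQ.ND
import Pool.Agent.Helper49.AXQ.D3A

/-!
# AXQ: standard-independent points satisfy `ND`
-/

namespace Pool.Agent.Helper49.AXQ

open Pool.Agent.Helper94.AXG

open scoped Classical in
/-- the sum of `B1 (u δ)` over the solutions `δ` mod `1` of `N δ = a / q` -/
theorem div_sum {q : ℕ} (hq : 1 ≤ q) {N : ℤ} (hN : N ≠ 0) {D : ℕ} (hD : 1 ≤ D)
    (hdvd : q * N.natAbs ∣ D) {a : ℤ} (ha : ¬ (q : ℤ) ∣ a) {u : ℤ} (hu : IsCoprime u (D : ℤ)) :
    ∑ n ∈ Finset.range D, (if (∃ z : ℤ, (a : ℚ) / q - N * ((n : ℚ) / D) = z) then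
      B1 (u * ((n : ℚ) / D)) else 0) = N.sign * B1 (u * ((a : ℚ) / q)) := by
  obtain ⟨E, hE⟩ := hdvd
  obtain ⟨M, hM⟩ : ∃ M : ℕ, M = N.natAbs := ⟨_, rfl⟩
  obtain ⟨s, hs⟩ : ∃ s : ℤ, s = N.sign := ⟨_, rfl⟩
  have hM1 : 1 ≤ M := by
    rw [hM]
    omega
  have hs2 : s * s = 1 := by
    rw [hs]
    rcases Int.lt_or_gt_of_ne hN with h | h
    · rw [Int.sign_eq_neg_one_of_neg h]; rfl
    · rw [Int.sign_eq_one_of_pos h]; rfl
  have hNs : N = s * M := by
    rw [hs, hM]
    exact (Int.sign_mul_natAbs N).symm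
  rw [← hM] at hE
  have hE1 : 1 ≤ E := by
    rcases Nat.eq_zero_or_pos E with h | h
    · rw [h, mul_zero] at hE; omega
    · exact h
  have hq0 : (q : ℚ) ≠ 0 := Nat.cast_ne_zero.2 (by omega)
  have hM0 : (M : ℚ) ≠ 0 := Nat.cast_ne_zero.2 (by omega)
  have hE0 : (E : ℚ) ≠ 0 := Nat.cast_ne_zero.2 (by omega)
  have hDZ : (D : ℤ) = q * M * E := by exact_mod_cast hE
  have hDQ : (D : ℚ) = q * M * E := by exact_mod_cast hE
  have hD0 : (D : ℤ) ≠ 0 := by
    have : D ≠ 0 := by omega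
    exact_mod_cast this
  have hDpos : (0 : ℤ) < D := by exact_mod_cast hD
  have hs2Q : (s : ℚ) * s = 1 := by exact_mod_cast hs2
  obtain ⟨ν, hν⟩ : ∃ ν : ℕ → ℤ, ν = fun j : ℕ => s * a * E + q * E * (j : ℤ) := ⟨_, rfl⟩
  have hmod : ∀ j, 0 ≤ ν j % (D : ℤ) := fun j => Int.emod_nonneg _ hD0
  have hlt : ∀ j, ν j % (D : ℤ) < D := fun j => Int.emod_lt_of_pos _ hDpos
  obtain ⟨f, hf⟩ : ∃ f : ℕ → ℕ, f = fun j => (ν j % (D : ℤ)).toNat := ⟨_, rfl⟩
  have hfZ : ∀ j, ((f j : ℕ) : ℤ) = ν j - D * (ν j / D) := by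
    intro j
    rw [hf]
    simp only
    rw [Int.toNat_of_nonneg (hmod j), Int.emod_def]
  have hfQ : ∀ j, ((f j : ℕ) : ℚ) / D = (s * ((a : ℚ) / q) + j) / M - ((ν j / (D : ℤ) : ℤ) : ℚ) := by
    intro j
    have h1 : ((f j : ℕ) : ℚ) = (s * a * E + q * E * j) - D * ((ν j / (D : ℤ) : ℤ) : ℚ) := by
      have h2 := hfZ j
      have h3 : (((f j : ℕ) : ℤ) : ℚ) = ((ν j - D * (ν j / D) : ℤ) : ℚ) := by rw [h2]
      rw [Int.cast_natCast] at h3
      rw [h3, hν]
      push_cast
      ring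
    rw [h1, hDQ]
    field_simp
  have hkey : ∑ n ∈ Finset.range D, (if (∃ z : ℤ, (a : ℚ) / q - N * ((n : ℚ) / D) = z) then
      B1 (u * ((n : ℚ) / D)) else 0) = ∑ j ∈ Finset.range M, B1 ((s * u * ((a : ℚ) / q) + u * j) / M) := by
    rw [← Finset.sum_filter]
    symm
    refine Finset.sum_bij (fun j _ => f j) ?_ ?_ ?_ ?_
    · intro j _
      rw [Finset.mem_filter, Finset.mem_range]
      refine ⟨?_, -(s * j) + N * (ν j / (D : ℤ)), ?_⟩
      · have h1 := hlt j
        have h2 := hmod j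
        rw [hf]
        simp only
        omega
      · rw [hfQ, hNs]
        push_cast
        field_simp
        linear_combination (-(a : ℚ)) * hs2Q
    · intro j hj j' hj' hjj
      rw [Finset.mem_range] at hj hj'
      have h1 := hfZ j
      have h2 := hfZ j'
      have h2' : f j = f j' := hjj
      rw [h2', h2] at h1
      have h3 : (q : ℤ) * E * ((j : ℤ) - j') = D * (ν j / D - ν j' / D) := by
        have e1 : ν j - ν j' = q * E * ((j : ℤ) - j') := by
          rw [hν]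
          simp only
          ring
        rw [← e1]
        linarith
      have hqE : (q : ℤ) * E ≠ 0 := by
        have : q * E ≠ 0 := Nat.mul_ne_zero (by omega) (by omega)
        exact_mod_cast this
      have h4 : ((j : ℤ) - j') = M * (ν j / D - ν j' / D) := by
        apply mul_left_cancel₀ hqE
        rw [h3, hDZ]
        ring
      have h5 : (M : ℤ) ∣ (j : ℤ) - j' := ⟨_, h4⟩
      have h6 : (j : ℤ) - j' = 0 := by
        apply Int.eq_zero_of_abs_lt_dvd h5
        rw [abs_lt]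
        constructor <;> omega
      omega
    · intro n hn
      rw [Finset.mem_filter, Finset.mem_range] at hn
      obtain ⟨hn1, z, hz⟩ := hn
      have h1 : (n : ℤ) = s * a * E - s * z * q * E := by
        have h2 : (a : ℚ) * E - s * n = z * q * E := by
          rw [hNs, hDQ] at hz
          push_cast at hz
          field_simp at hz
          have h3 : ((a : ℚ) * E - s * n) * M = (z * q * E) * M := by linear_combination hz * M
          exact mul_right_cancel₀ hM0 h3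
        have h4 : (a : ℤ) * E - s * n = z * q * E := by exact_mod_cast h2
        have h5 : s * (a * E - s * n) = s * (z * q * E) := by rw [h4]
        have h6 : s * (a * E - s * n) = s * a * E - (s * s) * n := by ring
        rw [h6, hs2, one_mul] at h5
        linarith
      obtain ⟨j, hj⟩ : ∃ j : ℕ, j = ((-(s * z)) % (M : ℤ)).toNat := ⟨_, rfl⟩
      have hMZ : (M : ℤ) ≠ 0 := by
        have : M ≠ 0 := by omega
        exact_mod_cast this
      have hjn : 0 ≤ (-(s * z)) % (M : ℤ) := Int.emod_nonneg _ hMZ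
      have hjl : (-(s * z)) % (M : ℤ) < M := Int.emod_lt_of_pos _ (by exact_mod_cast hM1)
      have hjZ : (j : ℤ) = -(s * z) - M * ((-(s * z)) / M) := by
        rw [hj, Int.toNat_of_nonneg hjn, Int.emod_def]
      refine ⟨j, ?_, ?_⟩
      · rw [Finset.mem_range, hj]
        omega
      · have h2 : ν j = n + D * (-((-(s * z)) / (M : ℤ))) := by
          rw [hν]
          simp only
          rw [hjZ, h1, hDZ]
          ring
        have h3 : ν j % (D : ℤ) = n := by
          rw [h2, Int.add_mul_emod_self_left]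
          exact Int.emod_eq_of_lt (by positivity) (by exact_mod_cast hn1)
        change f j = n
        rw [hf]
        simp only
        rw [h3, Int.toNat_natCast]
    · intro j _
      rw [hfQ]
      have h1 : (u : ℚ) * ((s * ((a : ℚ) / q) + j) / M - ((ν j / (D : ℤ) : ℤ) : ℚ)) =
          (s * u * ((a : ℚ) / q) + u * j) / M + ((-(u * (ν j / (D : ℤ))) : ℤ) : ℚ) := by
        push_cast
        ring
      rw [h1, B1_add_int]
  rw [hkey]
  have huM : IsCoprime u (M : ℤ) := by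
    rw [hDZ] at hu
    exact hu.of_mul_right_left.of_mul_right_right
  have huq : IsCoprime u (q : ℤ) := by
    rw [hDZ] at hu
    exact hu.of_mul_right_left.of_mul_right_left
  rw [sum_unit hM1 huM, B1_distr hM1, ← hs]
  have hni : ¬ ∃ n : ℤ, (u : ℚ) * ((a : ℚ) / q) = n := by
    rintro ⟨n, hn⟩
    field_simp at hn
    have h1 : u * a = n * q := by exact_mod_cast (by linarith : (u : ℚ) * a = n * q)
    exact ha (huq.symm.dvd_of_dvd_mul_left ⟨n, by rw [h1, mul_comm]⟩)
  have hcase : s = 1 ∨ s = -1 := by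
    rcases Int.lt_or_gt_of_ne hN with h | h
    · right; rw [hs, Int.sign_eq_neg_one_of_neg h]
    · left; rw [hs, Int.sign_eq_one_of_pos h]
  rcases hcase with h | h
  · rw [h]
    push_cast
    rw [one_mul, one_mul]
  · rw [h]
    push_cast
    rw [show (-1 : ℚ) * (u : ℚ) * ((a : ℚ) / q) = -((u : ℚ) * ((a : ℚ) / q)) by ring, B1_neg hni]
    ring

/-- standard-independence of the numbers `a i / q`, `i ∈ J` -/
def SI {ι : Type} (J : Finset ι) (q : ℕ) (a : ι → ℤ) : Prop :=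
  ∀ m : ι → ℤ, (∀ u : ℤ, IsCoprime u (q : ℤ) → ∑ i ∈ J, (m i : ℚ) * B1 (u * ((a i : ℚ) / q)) = 0) →
    ∀ i ∈ J, m i = 0

/-- standard-independent points -/
theorem ND_of_SI {ι : Type} (J : Finset ι) (q : ℕ) (hq : 1 ≤ q) (a : ι → ℤ)
    (ha : ∀ i ∈ J, ¬ (q : ℤ) ∣ a i) (hSI : SI J q a) : ND J q a := by
  classical
  intro C hC N b m t₀ hN hpt hsum
  obtain ⟨P, hP⟩ : ∃ P : ℕ, P = ∏ i ∈ C, (N i).natAbs := ⟨_, rfl⟩
  have hP1 : 1 ≤ P := by
    rw [hP]
    apply Nat.one_le_iff_ne_zero.2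
    apply Finset.prod_ne_zero_iff.2
    intro i hi
    exact Int.natAbs_ne_zero.2 (hN i hi)
  have hD : 1 ≤ q * P := Nat.one_le_iff_ne_zero.2 (Nat.mul_ne_zero (by omega) (by omega))
  have hdvd : ∀ i ∈ C, q * (N i).natAbs ∣ q * P := by
    intro i hi
    apply Nat.mul_dvd_mul_left
    rw [hP]
    exact Finset.dvd_prod_of_mem (fun i => (N i).natAbs) hi
  have hmain : ∀ u : ℤ, IsCoprime u ((q * P : ℕ) : ℤ) →
      ∑ i ∈ C, (m i : ℚ) * B1 (u * ((a i : ℚ) / q)) = 0 := by
    intro u hu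
    have h1 : ∑ n ∈ Finset.range (q * P), ((∑ i ∈ C,
        (if (∃ z : ℤ, (N i : ℚ) * (t₀ - (n : ℚ) / ((q * P : ℕ) : ℚ)) + b i = z) then
          (N i).sign * m i else 0) : ℤ) : ℚ) * B1 (u * ((n : ℚ) / ((q * P : ℕ) : ℚ))) = 0 := by
      refine Finset.sum_eq_zero fun n _ => ?_
      rw [hsum, Int.cast_zero, zero_mul]
    have h2 : ∀ n ∈ Finset.range (q * P), ((∑ i ∈ C,
        (if (∃ z : ℤ, (N i : ℚ) * (t₀ - (n : ℚ) / ((q * P : ℕ) : ℚ)) + b i = z) then
          (N i).sign * m i else 0) : ℤ) : ℚ) * B1 (u * ((n : ℚ) / ((q * P : ℕ) : ℚ))) =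
        ∑ i ∈ C, ((N i).sign * m i : ℚ) * (if (∃ z : ℤ, (a i : ℚ) / q - N i *
          ((n : ℚ) / ((q * P : ℕ) : ℚ)) = z) then B1 (u * ((n : ℚ) / ((q * P : ℕ) : ℚ))) else 0) := by
      intro n _
      rw [Int.cast_sum, Finset.sum_mul]
      refine Finset.sum_congr rfl fun i hi => ?_
      have e : (N i : ℚ) * (t₀ - (n : ℚ) / ((q * P : ℕ) : ℚ)) + b i = (a i : ℚ) / q - N i *
          ((n : ℚ) / ((q * P : ℕ) : ℚ)) := by
        rw [← hpt i hi]
        ring
      rw [e]
      by_cases h : ∃ z : ℤ, (a i : ℚ) / q - N i * ((n : ℚ) / ((q * P : ℕ) : ℚ)) = z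
      · rw [if_pos h, if_pos h]
        push_cast
        ring
      · rw [if_neg h, if_neg h]
        simp
    rw [Finset.sum_congr rfl h2, Finset.sum_comm] at h1
    rw [← h1]
    refine Finset.sum_congr rfl fun i hi => ?_
    rw [← Finset.mul_sum, div_sum hq (hN i hi) hD (hdvd i hi) (ha i (hC hi)) hu]
    have hs2 : (((N i).sign : ℤ) : ℚ) * (N i).sign = 1 := by
      have : (N i).sign * (N i).sign = 1 := by
        rcases Int.lt_or_gt_of_ne (hN i hi) with h | h
        · rw [Int.sign_eq_neg_one_of_neg h]; rfl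
        · rw [Int.sign_eq_one_of_pos h]; rfl
      exact_mod_cast this
    linear_combination (-(m i : ℚ) * B1 (u * ((a i : ℚ) / q))) * hs2
  have hall : ∀ u : ℤ, IsCoprime u (q : ℤ) →
      ∑ i ∈ J, (((if i ∈ C then m i else 0) : ℤ) : ℚ) * B1 (u * ((a i : ℚ) / q)) = 0 := by
    intro u hu
    obtain ⟨z, hz⟩ := exists_coprime_shift hP1 hq (a := -u) hu.neg_left
    have h1 := hmain (q * z - -u) (by
      push_cast
      exact hz)
    have hq0 : (q : ℚ) ≠ 0 := Nat.cast_ne_zero.2 (by omega)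
    have h2 : ∀ i, B1 (((q * z - -u : ℤ) : ℚ) * ((a i : ℚ) / q)) = B1 (u * ((a i : ℚ) / q)) := by
      intro i
      have e : ((q * z - -u : ℤ) : ℚ) * ((a i : ℚ) / q) = u * ((a i : ℚ) / q) + ((z * a i : ℤ) : ℚ) := by
        push_cast
        field_simp
        ring
      rw [e, B1_add_int]
    rw [Finset.sum_congr rfl (fun i _ => by rw [h2 i])] at h1
    rw [← h1]
    symm
    refine Finset.sum_subset_zero_on_sdiff hC (fun i hi => ?_) (fun i hi => ?_)
    · rw [if_neg (Finset.mem_sdiff.1 hi).2, Int.cast_zero, zero_mul]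
    · rw [if_pos hi]
  intro i hi
  have h := hSI (fun i => if i ∈ C then m i else 0) hall i (hC hi)
  simpa [hi] using h

end Pool.Agent.Helper49.AXQ
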