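import Pool.Agent.Helper94.AXG.D3

/-!
# AXQ: the condition which excludes matchings

`ND J q a`: there is no identity between the division points of the classes; both the coprime points of
one level with distinct classes mod `±` (`ND_of_coprime`) and the standard-independent points
(`ND_of_std`, file `D3C`) satisfy it.
-/

namespace Pool.Agent.Helper49.AXQ

open Pool.Agent.Helper94.AXG

open scoped Classical in
/-- no matching: the hypotheses are those of `no_div` -/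
def ND {ι : Type} (J : Finset ι) (q : ℕ) (a : ι → ℤ) : Prop :=
  ∀ (C : Finset ι), C ⊆ J → ∀ (N : ι → ℤ) (b : ι → ℚ) (m : ι → ℤ) (t₀ : ℚ), (∀ i ∈ C, N i ≠ 0) →
    (∀ i ∈ C, (N i : ℚ) * t₀ + b i = (a i : ℚ) / q) →
    (∀ τ : ℚ, ∑ i ∈ C, (if (∃ z : ℤ, (N i : ℚ) * τ + b i = z) then (N i).sign * m i else 0) = 0) →
    ∀ i ∈ C, m i = 0

theorem ND.mono {ι : Type} {J J' : Finset ι} {q : ℕ} {a : ι → ℤ} (h : ND J q a) (hJ : J' ⊆ J) :
    ND J' q a := fun C hC => h C (hC.trans hJ)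

/-- coprime points of one level -/
theorem ND_of_coprime {ι : Type} (J : Finset ι) (q : ℕ) (hq : 1 ≤ q) (a : ι → ℤ)
    (hcop : ∀ i ∈ J, IsCoprime (a i) (q : ℤ))
    (hdist : ∀ i ∈ J, ∀ j ∈ J, i ≠ j → ¬ (q : ℤ) ∣ a i - a j ∧ ¬ (q : ℤ) ∣ a i + a j) : ND J q a :=
  fun C hC N b m t₀ hN hpt hsum => no_div C N b m hN t₀ q hq a hpt (fun i hi => hcop i (hC hi))
    (fun i hi j hj hij => hdist i (hC hi) j (hC hj) hij) hsum

/-- transport to the index type `T ⊆ J` -/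
theorem ND.sub {ι : Type} {J : Finset ι} {q : ℕ} {a : ι → ℤ} (h : ND J q a) (T : Finset ι)
    (hT : T ⊆ J) : ND (Finset.univ : Finset T) q (fun i => a i) := by
  classical
  intro C _ N b m t₀ hN hpt hsum i hi
  obtain ⟨C', hC'⟩ : ∃ C' : Finset ι, C' = C.map (Function.Embedding.subtype _) := ⟨_, rfl⟩
  have hmem : ∀ j : T, j ∈ C ↔ (j : ι) ∈ C' := by
    intro j
    rw [hC']
    simp
  have hC'T : ∀ j ∈ C', j ∈ T := by
    intro j hj
    rw [hC'] at hj
    obtain ⟨j', -, rfl⟩ := Finset.mem_map.1 hj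
    exact j'.2
  obtain ⟨N', hN'⟩ : ∃ N' : ι → ℤ, N' = fun j => if h : j ∈ T then N ⟨j, h⟩ else 0 := ⟨_, rfl⟩
  obtain ⟨b', hb'⟩ : ∃ b' : ι → ℚ, b' = fun j => if h : j ∈ T then b ⟨j, h⟩ else 0 := ⟨_, rfl⟩
  obtain ⟨m', hm'⟩ : ∃ m' : ι → ℤ, m' = fun j => if h : j ∈ T then m ⟨j, h⟩ else 0 := ⟨_, rfl⟩
  have eN : ∀ j : T, N' j = N j := fun j => by rw [hN']; simp
  have eb : ∀ j : T, b' j = b j := fun j => by rw [hb']; simp
  have em : ∀ j : T, m' j = m j := fun j => by rw [hm']; simp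
  have key := h C' (fun j hj => hT (hC'T j hj)) N' b' m' t₀ (fun j hj => by
      have h1 := hN ⟨j, hC'T j hj⟩ ((hmem _).2 hj)
      rwa [← eN] at h1) (fun j hj => by
      have h1 := hpt ⟨j, hC'T j hj⟩ ((hmem _).2 hj)
      rwa [← eN, ← eb] at h1) (fun τ => by
      rw [hC', Finset.sum_map]
      refine Eq.trans (Finset.sum_congr rfl fun j _ => ?_) (hsum τ)
      simp only [Function.Embedding.subtype_apply, eN, eb, em])
  rw [← em]
  exact key i ((hmem i).1 hi)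

end Pool.Agent.Helper49.AXQ
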