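import Pool.Agent.Helper94.AXG.D2
import Pool.Agent.Helper49.AXQ.ND

/-! # AXQ-D4: no matching (form with the hypothesis `ND`) -/

namespace Pool.Agent.Helper49.AXQ

open Complex Filter Topology Pool.Agent.Helper94.AXG

open scoped Classical in
/-- AXG-D4. Proof. Choose `i₀` with `m i₀ ≠ 0`. Let `C` be the set of the `i` for which there are integers
`M, M' ≠ 0` and `c : ℂ` with `M ξ_{i₀} - M' ξ_i = c` near `0`; by `H2` `c = (M a_{i₀} - M' a_i)/q` is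
rational. `i₀ ∈ C` (`M = M' = 1`, `c = 0`). For `i ∈ C` choose `M_i, M'_i`; let `L = ∏_{i ∈ C} |M'_i| ≥ 1`,
`N_i = M_i L / M'_i` (a nonzero integer), `b_i = -(M_i a_{i₀} - M'_i a_i)/(q M'_i)`, so that
`ξ_i = N_i ξ_{i₀}/L + b_i`. With `t₀ = a_{i₀}/(q L)`: `N_i t₀ + b_i = a_i / q`. `class_sum` gives `hsum` of
`no_div`, so `m i = 0` for all `i ∈ C`, in particular `m i₀ = 0`. -/
theorem no_matching {T : Type} [Fintype T] [DecidableEq T] {K : ℕ} (hK : 1 ≤ K) (ξ h : T → ℂ → ℂ)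
    (hξ : ∀ i, Pl K (ξ i) (h i)) (m : T → ℤ) (hm0 : m ≠ 0)
    (hm : ∀ ω : ℂ, ω ≠ 0 → ∀ᶠ s in 𝓝[≠] (0 : ℂ),
      ∑ i, (if (∃ n : ℤ, ξ i s = n) then sgr (h i 0 / ω) * m i else 0) = 0)
    (q : ℕ) (hq : 1 ≤ q) (a : T → ℤ) (hnd : ND Finset.univ q a)
    (H2 : ∀ (i j : T) (M M' : ℤ) (c : ℂ), M ≠ 0 → M' ≠ 0 →
      (∀ᶠ s in 𝓝[≠] (0 : ℂ), M * ξ i s - M' * ξ j s = c) →
      ((M * a i - M' * a j : ℤ) : ℂ) / q = c) : False := by
  classical
  obtain ⟨i₀, hi₀⟩ : ∃ i, m i ≠ 0 := by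
    by_contra hcon
    push Not at hcon
    exact hm0 (funext hcon)
  have hi₀' : m i₀ ≠ 0 := hi₀
  have hqC : (q : ℂ) ≠ 0 := by
    have : q ≠ 0 := by omega
    exact_mod_cast this
  have hqQ : (q : ℚ) ≠ 0 := by
    have : q ≠ 0 := by omega
    exact_mod_cast this
  let Pr : T → Prop := fun i => ∃ (M M' : ℤ) (c : ℂ), M ≠ 0 ∧ M' ≠ 0 ∧
      ∀ᶠ s in 𝓝[≠] (0 : ℂ), M * ξ i₀ s - M' * ξ i s = c
  let C : Finset T := Finset.univ.filter Pr
  have hmemC : ∀ i, i ∈ C ↔ Pr i := by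
    intro i
    simp only [C, Finset.mem_filter, Finset.mem_univ, true_and]
  have hch : ∀ i, ∃ (M M' : ℤ) (c : ℂ), M ≠ 0 ∧ M' ≠ 0 ∧ (i ∈ C →
      ∀ᶠ s in 𝓝[≠] (0 : ℂ), M * ξ i₀ s - M' * ξ i s = c) := by
    intro i
    by_cases h : i ∈ C
    · obtain ⟨M, M', c, h1, h2, h3⟩ := (hmemC i).1 h
      exact ⟨M, M', c, h1, h2, fun _ => h3⟩
    · exact ⟨1, 1, 0, one_ne_zero, one_ne_zero, fun h' => absurd h' h⟩
  choose M M' c hM hM' hMc using hch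
  have hcval : ∀ i ∈ C, c i = ((M i * a i₀ - M' i * a i : ℤ) : ℂ) / q := by
    intro i hi
    exact (H2 i₀ i (M i) (M' i) (c i) (hM i) (hM' i) (hMc i hi)).symm
  have hi₀C : i₀ ∈ C := by
    rw [hmemC]
    refine ⟨1, 1, 0, one_ne_zero, one_ne_zero, ?_⟩
    filter_upwards with s
    simp
  let L : ℕ := ∏ i ∈ C, (M' i).natAbs
  have hL : 1 ≤ L := by
    apply Nat.one_le_iff_ne_zero.2
    apply Finset.prod_ne_zero_iff.2
    intro i _
    exact Int.natAbs_ne_zero.2 (hM' i)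
  have hLC : (L : ℂ) ≠ 0 := by
    have : L ≠ 0 := by omega
    exact_mod_cast this
  have hLQ : (L : ℚ) ≠ 0 := by
    have : L ≠ 0 := by omega
    exact_mod_cast this
  have hdvd : ∀ i ∈ C, M' i ∣ (L : ℤ) := by
    intro i hi
    apply Int.natAbs_dvd_natAbs.1
    rw [Int.natAbs_natCast]
    exact Finset.dvd_prod_of_mem (fun i => (M' i).natAbs) hi
  have hch2 : ∀ i, ∃ l : ℤ, i ∈ C → (L : ℤ) = M' i * l := by
    intro i
    by_cases h : i ∈ C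
    · obtain ⟨l, hl⟩ := hdvd i h
      exact ⟨l, fun _ => hl⟩
    · exact ⟨0, fun h' => absurd h' h⟩
  choose l hl using hch2
  have hl0 : ∀ i ∈ C, l i ≠ 0 := by
    intro i hi h0
    have := hl i hi
    rw [h0, mul_zero] at this
    have h2 : L = 0 := by exact_mod_cast this
    omega
  let N : T → ℤ := fun i => M i * l i
  let b : T → ℚ := fun i => -((M i * a i₀ - M' i * a i : ℤ) : ℚ) / (q * M' i)
  have hN : ∀ i ∈ C, N i ≠ 0 := fun i hi => mul_ne_zero (hM i) (hl0 i hi)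
  have hCC : ∀ i ∈ C, ∀ᶠ s in 𝓝[≠] (0 : ℂ), ξ i s = N i * (ξ i₀ s / L) + (b i : ℂ) := by
    intro i hi
    have hM'C : (M' i : ℂ) ≠ 0 := by exact_mod_cast hM' i
    have hlC : (l i : ℂ) ≠ 0 := by exact_mod_cast hl0 i hi
    have hLe : (L : ℂ) = M' i * l i := by
      have := hl i hi
      exact_mod_cast this
    filter_upwards [hMc i hi] with s hs
    have h1 : (M' i : ℂ) * ξ i s = M i * ξ i₀ s - c i := by
      rw [← hs]; ring
    have h2 : ξ i s = (M i * ξ i₀ s - c i) / M' i := by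
      rw [← h1]; field_simp
    rw [h2, hcval i hi]
    simp only [N, b]
    rw [hLe]
    push_cast
    field_simp
    ring
  have hC' : ∀ i, i ∉ C → ¬ ∃ (M M' : ℤ) (c : ℂ), M ≠ 0 ∧ M' ≠ 0 ∧
      ∀ᶠ s in 𝓝[≠] (0 : ℂ), M * ξ i₀ s - M' * ξ i s = c := by
    intro i hi h
    exact hi ((hmemC i).2 h)
  have hsum := fun τ : ℚ => class_sum hK ξ h hξ m hm i₀ L hL C N b hN hCC hC' τ
  have hpt : ∀ i ∈ C, (N i : ℚ) * ((a i₀ : ℚ) / (q * L)) + b i = (a i : ℚ) / q := by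
    intro i hi
    have hM'Q : (M' i : ℚ) ≠ 0 := by exact_mod_cast hM' i
    have hlQ : (l i : ℚ) ≠ 0 := by exact_mod_cast hl0 i hi
    have hLe : (L : ℚ) = M' i * l i := by
      have := hl i hi
      exact_mod_cast this
    simp only [N, b]
    rw [hLe]
    push_cast
    field_simp
    ring
  have hfin := hnd C (Finset.subset_univ C) N b m ((a i₀ : ℚ) / (q * L)) hN hpt hsum
  exact hi₀' (hfin i₀ hi₀C)

end Pool.Agent.Helper49.AXQ
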