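import Pool.Agent.Helper94.AXG.F1B
import Pool.Agent.Helper94.AXG.F3
import Pool.Agent.Helper49.AXQ.E7C

/-! # AXQ-F4: the contradiction at one level -/

namespace Pool.Agent.Helper49.AXQ

open MvPolynomial Pool.Agent.Helper94.AXG

private lemma F4_nonempty {r k : ℕ} (hr : 1 ≤ r) (A : Matrix (Fin r) (Fin k) ℤ)
    (I : Ideal (MvPolynomial (Fin k) ℂ)) {Δ : Set (Fin r → ℂ)} (hΔ : IsOpen Δ) (hne : Δ.Nonempty)
    (hpts : ∀ z ∈ Δ, ∃ x : Fin k → ℂ, mv A x = z ∧ (∀ f ∈ I, eval x f = 0))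
    (h1 : ∀ i, ∃ c : ℂ, (X i : MvPolynomial (Fin k) ℂ) - C c ∈ I) : False := by
  choose c hc using h1
  have h2 : ∀ z ∈ Δ, z = mv A c := by
    intro z hz
    obtain ⟨x, hx, hxI⟩ := hpts z hz
    have h3 : x = c := by
      funext i
      have h4 := hxI _ (hc i)
      rw [map_sub, eval_X, eval_C, sub_eq_zero] at h4
      exact h4
    rw [← hx, h3]
  obtain ⟨z, hz⟩ := hne
  have h3 : Δ = {z} := by
    ext w
    constructor
    · intro hw
      rw [Set.mem_singleton_iff, h2 w hw, h2 z hz]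
    · intro hw
      rw [Set.mem_singleton_iff.1 hw]
      exact hz
  have : Nonempty (Fin r) := ⟨⟨0, hr⟩⟩
  have : (nhdsWithin z {z}ᶜ).NeBot := Module.punctured_nhds_neBot ℂ (Fin r → ℂ) z
  exact not_isOpen_singleton z (h3 ▸ hΔ)

private lemma F4_U (z : ℂ) : AnalyticAt ℂ U z :=
  (Complex.differentiable_one_div_Gamma).analyticAt z

private lemma F4_proj {k : ℕ} (i : Fin k) (w : ℂ × (Fin k → ℂ)) :
    AnalyticAt ℂ (fun w : ℂ × (Fin k → ℂ) => w.2 i) w :=
  ((ContinuousLinearMap.proj (R := ℂ) (φ := fun _ : Fin k => ℂ) i).comp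
    (ContinuousLinearMap.snd ℂ ℂ (Fin k → ℂ))).analyticAt w

private lemma F4_Uproj {k : ℕ} (i : Fin k) (w : ℂ × (Fin k → ℂ)) :
    AnalyticAt ℂ (fun w : ℂ × (Fin k → ℂ) => U (w.2 i)) w := by
  change AnalyticAt ℂ (U ∘ (fun w : ℂ × (Fin k → ℂ) => w.2 i)) w
  exact AnalyticAt.comp_of_eq (F4_U (w.2 i)) (F4_proj i w) rfl

private lemma F4_poly {k : ℕ} (f : MvPolynomial (Fin k) ℂ) (g : ℂ × (Fin k → ℂ) → Fin k → ℂ)
    (w : ℂ × (Fin k → ℂ)) (hg : ∀ i, AnalyticAt ℂ (fun w => g w i) w) :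
    AnalyticAt ℂ (fun w => eval (g w) f) w := by
  have h := AnalyticAt.aeval_mvPolynomial hg f
  simpa [MvPolynomial.coe_aeval_eq_eval] using h

private lemma F4_pt {k : ℕ} (c : Crv k) (t : ℂ) (ht : t ∉ c.S) : ∃ y, c.Pt t y := by
  have h2 : (c.M.map (Polynomial.evalRingHom t)).natDegree = c.M.natDegree :=
    c.monic.natDegree_map _
  have h3 : c.M.natDegree ≠ 0 := by
    intro h
    have h4 : c.M = 1 := (Polynomial.Monic.natDegree_eq_zero c.monic).1 h
    exact c.irr.not_isUnit (by rw [h4]; exact isUnit_one)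
  obtain ⟨y, hy⟩ := IsAlgClosed.exists_root (c.M.map (Polynomial.evalRingHom t)) (by
    intro h
    apply h3
    rw [← h2]
    exact Polynomial.natDegree_eq_of_degree_eq_some h)
  exact ⟨y, ht, hy⟩

private lemma F4_evalC {r : ℕ} (χ : Polynomial (MvPolynomial (Fin r) ℂ)) (x : Fin r → ℂ) (b : ℂ) :
    (χ.map (eval x)).eval b = eval x (χ.eval (C b)) := by
  have h : (χ.map (eval x)).eval (eval x (C b)) = eval x (χ.eval (C b)) :=
    Polynomial.eval_map_apply (eval x) (C b)
  rwa [eval_C] at h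

private lemma F4_supp {k : ℕ} (J : Finset (Fin k)) (g : Fin k → MvPolynomial (Fin k) ℂ)
    (hg : ∀ i, g i ∈ supported ℂ (J : Set (Fin k))) (P : MvPolynomial (Fin k) ℂ) :
    aeval g P ∈ supported ℂ (J : Set (Fin k)) := by
  induction P using MvPolynomial.induction_on with
  | C a =>
    rw [aeval_C]
    exact Subalgebra.algebraMap_mem _ _
  | add p q hp hq =>
    rw [map_add]
    exact Subalgebra.add_mem _ hp hq
  | mul_X p i hp =>
    rw [map_mul, aeval_X]
    exact Subalgebra.mul_mem _ hp (hg i)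

private lemma F4_comp {k : ℕ} (x : Fin k → ℂ) (g : Fin k → MvPolynomial (Fin k) ℂ)
    (P : MvPolynomial (Fin k) ℂ) : eval x (aeval g P) = eval (fun i => eval x (g i)) P := by
  induction P using MvPolynomial.induction_on with
  | C a => rw [aeval_C, algebraMap_eq, eval_C, eval_C]
  | add p q hp hq => rw [map_add, map_add, map_add, hp, hq]
  | mul_X p i hp => rw [map_mul, map_mul, map_mul, hp, aeval_X, eval_X]

open scoped Classical in
/-- AXG-F4. Proof. Let `J = {i : ¬ ∃ c, X i - C c ∈ I}`. `J` is nonempty: otherwise all `x_i` are constant on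
the zeros of `I`, so `A x` takes only one value, but `Δ` has at least two points (`r ≥ 1`, open,
nonempty). Let `p ∈ Δ`, `v` from `exists_line`, `c` from `line_curve`. On the curve: `A X = p + t v`, all
`f ∈ I` vanish at `X(t, y)`, and `eval (U ∘ X) P = 0` (three instances of `G`; `U` is entire). For `i ∉ J`:
`X_i = b_i` on the curve, and `b_i = a_i / q` by `hpt`. (*) Let `(i, j, M, M')` be such that
`M X_i - M' X_j = b` on the curve. Then the second alternative of `exists_line` is impossible: by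
`eval_chi` `χ(p + t v, b) = 0` for all `t ∉ S` (for such `t` there is a point of the curve), so for all `t`
by `line_zero` (applied to `χ.eval (C b)`), a contradiction. Hence `M X_i - M' X_j - C b' ∈ I`, `b' = b`
(evaluate at a point of the curve) and `(M a_i - M' a_j)/q = b` by `hpt`. So `hnc` of `gamma_indep` holds
for `i ∈ J` (use (*) with `(i, i, 1, 0)`), and `H2` holds. `gamma_indep` for the polynomial of the
conclusion (its variables are in `J`, and it vanishes at `U(X_j)` on the curve as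
`U(X_i) = U(a_i/q)` for `i ∉ J`). -/
theorem level_final {r k : ℕ} (hr : 1 ≤ r) (A : Matrix (Fin r) (Fin k) ℤ)
    (I : Ideal (MvPolynomial (Fin k) ℂ)) (hint : ∀ i, Intg A I (X i))
    (hd : ∀ (i j : Fin k) (M M' : ℤ), Dich A I (lin2 i j (M : ℂ) (M' : ℂ)))
    {Δ : Set (Fin r → ℂ)} (hΔ : IsOpen Δ) (hne : Δ.Nonempty) (P : MvPolynomial (Fin k) ℂ)
    (hpts : ∀ z ∈ Δ, ∃ x : Fin k → ℂ, mv A x = z ∧ (∀ f ∈ I, eval x f = 0) ∧
      eval (fun i => U (x i)) P = 0)
    (q : ℕ) (hq : 1 ≤ q) (a : Fin k → ℤ) (hnd : ND Finset.univ q a)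
    (hpt : ∀ f ∈ I, eval (fun i => (a i : ℂ) / q) f = 0) :
    ∃ J : Finset (Fin k), J.Nonempty ∧
      aeval (fun i => if i ∈ J then (X i : MvPolynomial (Fin k) ℂ) else C (U ((a i : ℂ) / q))) P = 0 := by
  classical
  obtain ⟨J, hJd⟩ : ∃ J : Finset (Fin k), ∀ i, i ∈ J ↔
      ¬ ∃ c : ℂ, (X i : MvPolynomial (Fin k) ℂ) - C c ∈ I :=
    ⟨Finset.univ.filter (fun i => ¬ ∃ c : ℂ, (X i : MvPolynomial (Fin k) ℂ) - C c ∈ I),
      fun i => by simp⟩
  have hJc : ∀ i, i ∉ J → ∃ c : ℂ, (X i : MvPolynomial (Fin k) ℂ) - C c ∈ I := fun i hi => by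
    by_contra h
    exact hi ((hJd i).2 h)
  have hJne : J.Nonempty := by
    rw [Finset.nonempty_iff_ne_empty]
    intro hJ
    exact F4_nonempty hr A I hΔ hne (fun z hz => by
      obtain ⟨x, h1, h2, _⟩ := hpts z hz
      exact ⟨x, h1, h2⟩) (fun i => hJc i (by rw [hJ]; exact Finset.notMem_empty i))
  obtain ⟨p, hp⟩ := hne
  obtain ⟨v, hv⟩ := exists_line A I hd p
  obtain ⟨c, hc⟩ := line_curve A I hint hΔ P hpts p v hp
  have hmv : ∀ t y, c.Pt t y → mv A (fun j => c.X j t y) = fun l => p l + t * v l := by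
    intro t y hty
    funext l
    have h1 := hc (fun w => mv A w.2 l - (p l + w.1 * v l)) (fun w => by
      refine AnalyticAt.sub ?_ ?_
      · refine Finset.analyticAt_fun_sum _ fun i _ => ?_
        exact analyticAt_const.mul (F4_proj i w)
      · exact analyticAt_const.add (analyticAt_fst.mul analyticAt_const))
      (fun t x h _ _ => by
        have h2 := congrFun h l
        change mv A x l - (p l + t * v l) = 0
        rw [h2, sub_self]) t y hty
    exact sub_eq_zero.1 h1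
  have hI : ∀ t y, c.Pt t y → ∀ f ∈ I, eval (fun j => c.X j t y) f = 0 := by
    intro t y hty f hf
    exact hc (fun w => eval w.2 f) (fun w => F4_poly f (fun w => w.2) w (fun i => F4_proj i w))
      (fun t x _ h _ => h f hf) t y hty
  have hP : ∀ t y, c.Pt t y → eval (fun j => U (c.X j t y)) P = 0 := by
    intro t y hty
    exact hc (fun w => eval (fun i => U (w.2 i)) P)
      (fun w => F4_poly P (fun w i => U (w.2 i)) w (fun i => F4_Uproj i w))
      (fun t x _ _ h => h) t y hty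
  have hstar : ∀ (i j : Fin k) (M M' : ℤ) (b : ℂ),
      (∀ t y, c.Pt t y → M * c.X i t y - M' * c.X j t y = b) →
      lin2 i j (M : ℂ) (M' : ℂ) - C b ∈ I ∧ (M * a i - M' * a j : ℂ) / q = b := by
    intro i j M M' b hb
    have hlin : ∀ x : Fin k → ℂ, eval x (lin2 i j (M : ℂ) (M' : ℂ)) = M * x i - M' * x j := by
      intro x
      unfold lin2
      simp only [map_sub, map_mul, eval_C, eval_X]
    rcases hv i j M M' with ⟨c', hc'⟩ | ⟨χ, hχ, hχI, hχc⟩
    · obtain ⟨t, ht⟩ := Infinite.exists_notMem_finset c.S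
      obtain ⟨y, hty⟩ := F4_pt c t ht
      have h1 := hI t y hty _ hc'
      rw [map_sub, eval_C, hlin, hb t y hty, sub_eq_zero] at h1
      rw [← h1] at hc'
      refine ⟨hc', ?_⟩
      have h2 := hpt _ hc'
      rw [map_sub, eval_C, hlin, sub_eq_zero] at h2
      rw [← h2]
      ring
    · exfalso
      have h1 : ∀ t, t ∉ c.S → eval (fun l => p l + t * v l) (χ.eval (C b)) = 0 := by
        intro t ht
        obtain ⟨y, hty⟩ := F4_pt c t ht
        have h2 := hI t y hty _ hχI
        rw [eval_chi, hmv t y hty, hlin, hb t y hty] at h2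
        rw [← F4_evalC]
        exact h2
      obtain ⟨t, ht⟩ := hχc b
      exact ht (line_zero _ p v c.S h1 t)
  have hnotJ : ∀ i, i ∉ J → ∀ t y, c.Pt t y → c.X i t y = (a i : ℂ) / q := by
    intro i hi t y hty
    obtain ⟨b, hb⟩ := hJc i hi
    have h1 := hI t y hty _ hb
    have h2 := hpt _ hb
    rw [map_sub, eval_X, eval_C, sub_eq_zero] at h1 h2
    rw [h1, h2]
  refine ⟨J, hJne, ?_⟩
  refine gamma_indep c J ?_ q hq a (hnd.mono (Finset.subset_univ J)) ?_ _ ?_ ?_
  · rintro j hj ⟨b, hb⟩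
    have h1 := (hstar j j 1 0 b (fun t y hty => by
      rw [Int.cast_one, Int.cast_zero, one_mul, zero_mul, sub_zero]
      exact hb t y hty)).1
    refine (hJd j).1 hj ⟨b, ?_⟩
    have h2 : lin2 j j ((1 : ℤ) : ℂ) ((0 : ℤ) : ℂ) = (X j : MvPolynomial (Fin k) ℂ) := by
      unfold lin2
      simp
    rwa [h2] at h1
  · intro i _ j _ M M' b _ _ hb
    have h1 := (hstar i j M M' b hb).2
    push_cast
    exact h1
  · rw [← mem_supported]
    refine F4_supp J _ (fun i => ?_) P
    by_cases hi : i ∈ J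
    · rw [if_pos hi]
      exact X_mem_supported.2 hi
    · rw [if_neg hi]
      exact Subalgebra.algebraMap_mem (supported ℂ (J : Set (Fin k))) _
  · intro t y hty
    rw [F4_comp]
    rw [← hP t y hty]
    refine congrArg (fun g => eval g P) (funext fun i => ?_)
    by_cases hi : i ∈ J
    · rw [if_pos hi, eval_X]
    · rw [if_neg hi, eval_C, hnotJ i hi t y hty]

end Pool.Agent.Helper49.AXQ
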