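import Pool.Agent.Helper49.AXQ.D3C
import Pool.Agent.Helper94.AXG.Y3

/-!
# AXQ, block Y: sets of rationals
-/

namespace Pool.Agent.Helper49.AXQ

open MvPolynomial Pool.Agent.Helper94.AXG

/-- standard-independence of a set of rational numbers -/
def StdIndep (J : Finset ℚ) : Prop :=
  ∀ m : ℚ → ℤ, (∀ u : ℤ, (∀ r ∈ J, IsCoprime u (r.den : ℤ)) → ∑ r ∈ J, (m r : ℚ) * B1 (u * r) = 0) →
    ∀ r ∈ J, m r = 0

/-- standard-independence of a tuple -/
def StdIndepT {k : ℕ} (r : Fin k → ℚ) : Prop :=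
  ∀ m : Fin k → ℤ, (∀ u : ℤ, (∀ i, IsCoprime u ((r i).den : ℤ)) → ∑ i, (m i : ℚ) * B1 (u * r i) = 0) →
    ∀ i, m i = 0

/-- the numbers `π` (index `none`) and `Γ(r)`, `r ∈ J` -/
noncomputable def gvals (J : Finset ℚ) : Option J → ℂ :=
  fun o => o.elim (Real.pi : ℂ) (fun r => Complex.Gamma ((r : ℚ) : ℂ))

/-- `π` and the `Γ(r)`, `r ∈ J`, satisfy a polynomial relation over `ℤ` of total degree `≤ d` and with
coefficients of absolute value `≤ H`, not all `0` -/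
def DepQ (d H : ℕ) (J : Finset ℚ) : Prop :=
  ∃ P : MvPolynomial (Option J) ℤ, P ≠ 0 ∧ P.totalDegree ≤ d ∧ (∀ ν, |coeff ν P| ≤ (H : ℤ)) ∧
    aeval (gvals J) P = 0

/-- rational numbers in `(0, 1)` with denominators `≤ Q` -/
def Rat01 (Q : ℕ) (r : ℚ) : Prop := 0 < r ∧ r < 1 ∧ r.den ≤ Q

/-- minimal dependent sets of `k` standard-independent numbers -/
def MinQ (k d H Q : ℕ) : Set (Finset ℚ) :=
  {J : Finset ℚ | J.card = k ∧ (∀ r ∈ J, Rat01 Q r) ∧ StdIndep J ∧ DepQ d H J ∧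
    ∀ J', J' ⊂ J → ¬ DepQ d H J'}

/-- dependent sets of `k` standard-independent numbers -/
def AllQ (k d H Q : ℕ) : Set (Finset ℚ) :=
  {J : Finset ℚ | J.card = k ∧ (∀ r ∈ J, Rat01 Q r) ∧ StdIndep J ∧ DepQ d H J}

/-- the numerator of `r` with respect to the denominator `q` -/
def en (q : ℕ) (r : ℚ) : ℕ := r.num.natAbs * (q / r.den)

theorem en_cast {q : ℕ} {r : ℚ} (hr : 0 ≤ r) (hd : r.den ∣ q) : ((en q r : ℕ) : ℚ) = r * q := by
  obtain ⟨w, hw⟩ := hd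
  have hden : (r.den : ℚ) ≠ 0 := Nat.cast_ne_zero.2 r.den_ne_zero
  have h1 : q / r.den = w := by
    rw [hw]
    exact Nat.mul_div_cancel_left w r.den_pos
  have h2 : ((r.num.natAbs : ℕ) : ℚ) = r.num := by
    have h3 : ((r.num.natAbs : ℕ) : ℤ) = r.num := Int.natAbs_of_nonneg (Rat.num_nonneg.2 hr)
    rw [← Int.cast_natCast, h3]
  unfold en
  rw [h1, Nat.cast_mul, h2, hw, Nat.cast_mul]
  have h4 : (r.num : ℚ) = r * r.den := (Rat.mul_den_eq_num r).symm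
  rw [h4]
  ring

theorem en_div {q : ℕ} (hq : 1 ≤ q) {r : ℚ} (hr : 0 ≤ r) (hd : r.den ∣ q) : ((en q r : ℕ) : ℚ) / q = r := by
  rw [en_cast hr hd]
  have : (q : ℚ) ≠ 0 := Nat.cast_ne_zero.2 (by omega)
  field_simp

theorem en_divC {q : ℕ} (hq : 1 ≤ q) {r : ℚ} (hr : 0 ≤ r) (hd : r.den ∣ q) :
    ((en q r : ℕ) : ℂ) / (q : ℂ) = (r : ℂ) := by
  have h := congrArg (Rat.cast : ℚ → ℂ) (en_div hq hr hd)
  push_cast at h
  exact h

theorem en_pos {q : ℕ} (hq : 1 ≤ q) {r : ℚ} (hr : 0 < r) (hd : r.den ∣ q) : 1 ≤ en q r := by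
  have h := en_cast hr.le hd
  have hq' : (0 : ℚ) < q := by exact_mod_cast hq
  have h1 : (0 : ℚ) < ((en q r : ℕ) : ℚ) := by
    rw [h]
    exact mul_pos hr hq'
  exact_mod_cast h1

theorem en_lt {q : ℕ} (hq : 1 ≤ q) {r : ℚ} (hr : 0 < r) (hr1 : r < 1) (hd : r.den ∣ q) : en q r < q := by
  have h := en_cast hr.le hd
  have hq' : (0 : ℚ) < q := by exact_mod_cast hq
  have h1 : ((en q r : ℕ) : ℚ) < q := by
    rw [h]
    calc r * q < 1 * q := mul_lt_mul_of_pos_right hr1 hq'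
      _ = q := one_mul _
  exact_mod_cast h1

theorem Sm_rename {σ τ : Type} {d H : ℕ} (g : σ → τ) (hg : Function.Injective g)
    {R : MvPolynomial σ ℤ} (hR : R ≠ 0 ∧ R.totalDegree ≤ d ∧ ∀ ν, |coeff ν R| ≤ (H : ℤ)) :
    rename g R ≠ 0 ∧ (rename g R).totalDegree ≤ d ∧ ∀ ν, |coeff ν (rename g R)| ≤ (H : ℤ) := by
  obtain ⟨h1, h2, h3⟩ := hR
  refine ⟨fun h => h1 (rename_injective g hg (h.trans (map_zero _).symm)),
    (totalDegree_rename_le g R).trans h2, fun ν => ?_⟩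
  by_cases h : ∃ u : σ →₀ ℕ, u.mapDomain g = ν
  · obtain ⟨u, rfl⟩ := h
    rw [coeff_rename_mapDomain g hg]
    exact h3 u
  · rw [coeff_rename_eq_zero g R ν (fun u hu => absurd ⟨u, hu⟩ h), abs_zero]
    exact Int.natCast_nonneg H

/-- from the rational numbers to the numerators -/
theorem dep_of_depQ {d H q : ℕ} (hq : 1 ≤ q) {J : Finset ℚ} (hJ : ∀ r ∈ J, 0 < r ∧ r.den ∣ q)
    (h : DepQ d H J) : Dep d H q (J.image (en q)) := by
  classical
  obtain ⟨P, h1, h2, h3, h4⟩ := h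
  refine dep_of_inj (σ := J) (fun r => en q r) (fun r => Finset.mem_image_of_mem _ r.2) ?_
    (R := P) ⟨h1, h2, h3⟩ ?_
  · intro r s hrs
    apply Subtype.ext
    have e1 := en_div hq (hJ r r.2).1.le (hJ r r.2).2
    have e2 := en_div hq (hJ s s.2).1.le (hJ s s.2).2
    rw [← e1, ← e2]
    have hrs' : en q (r : ℚ) = en q (s : ℚ) := hrs
    rw [hrs']
  · rw [← h4]
    congr 2
    funext o
    cases o with
    | none => rfl
    | some r =>
      change Complex.Gamma (((en q (r : ℚ) : ℕ) : ℂ) / (q : ℂ)) = Complex.Gamma ((r : ℚ) : ℂ)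
      rw [en_divC hq (hJ r r.2).1.le (hJ r r.2).2]

/-- from the numerators to the rational numbers -/
theorem depQ_of_dep {d H q : ℕ} (hq : 1 ≤ q) {J' : Finset ℕ} {J : Finset ℚ}
    (hJ : ∀ n ∈ J', ((n : ℚ) / q) ∈ J) (h : Dep d H q J') : DepQ d H J := by
  classical
  obtain ⟨P, h1, h2, h3, h4⟩ := h
  have hq0 : (q : ℚ) ≠ 0 := Nat.cast_ne_zero.2 (by omega)
  have hg : Function.Injective (Option.map (fun n : J' => (⟨((n : ℕ) : ℚ) / q, hJ n n.2⟩ : J))) := by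
    apply Option.map_injective
    intro n n' hnn
    apply Subtype.ext
    have e := congrArg Subtype.val hnn
    simp only at e
    have e' : ((n : ℕ) : ℚ) = ((n' : ℕ) : ℚ) := by
      field_simp at e
      exact e
    exact_mod_cast e'
  obtain ⟨g1, g2, g3⟩ := Sm_rename _ hg ⟨h1, h2, h3⟩
  refine ⟨_, g1, g2, g3, ?_⟩
  rw [aeval_rename, ← h4]
  congr 2
  funext o
  cases o with
  | none => rfl
  | some n =>
    change Complex.Gamma (((((n : ℕ) : ℚ) / q : ℚ)) : ℂ) = Complex.Gamma (((n : ℕ) : ℂ) / (q : ℂ))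
    push_cast
    rfl

end Pool.Agent.Helper49.AXQ
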