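import Pool.Agent.Helper94.AXG.Z10B
import Pool.Agent.Helper49.AXQ.F4

/-! # AXQ-Z11B -/

namespace Pool.Agent.Helper49.AXQ

open MvPolynomial Filter Topology Pool.Agent.Helper94.AXG

/-- the admissible points: `1 ≤ a_i < q` and the condition `ND` -/
def AdmG {k : ℕ} (x : Pt k) : Prop :=
  1 ≤ x.1 ∧ (∀ i, 1 ≤ x.2 i ∧ x.2 i < x.1) ∧ ND Finset.univ x.1 (fun i => ((x.2 i : ℕ) : ℤ))

/-- the contradiction at one level -/
theorem level_contra {k r d : ℕ} (hr : 1 ≤ r) (A : Matrix (Fin r) (Fin k) ℤ)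
    (I : Ideal (MvPolynomial (Fin k) ℂ)) (hint : ∀ i, Intg A I (X i))
    (hd : ∀ (i j : Fin k) (M M' : ℤ), Dich A I (lin2 i j (M : ℂ) (M' : ℂ)))
    {P : MvPolynomial (Fin k) ℂ} (hP : P.totalDegree ≤ d)
    {Δ : Set (Fin r → ℂ)} (hΔ : IsOpen Δ) (hne : Δ.Nonempty)
    (hpts : ∀ z ∈ Δ, ∃ x : Fin k → ℂ, mv A x = z ∧ (∀ f ∈ I, eval x f = 0) ∧ gam (cf d P) x = 0)
    {x : Pt k} (hx : AdmG x) (hz : Zr P x) (hpt : ∀ f ∈ I, eval (xp x) f = 0) : False := by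
  classical
  obtain ⟨hq, ha, hnd⟩ := hx
  have hcast : (fun i => (((x.2 i : ℕ) : ℤ) : ℂ) / ((x.1 : ℕ) : ℂ)) = xp x := by
    funext i
    unfold xp
    rw [Int.cast_natCast]
  obtain ⟨J, hJ, hJz⟩ := level_final hr A I hint hd hΔ hne (rv d P)
    (fun z hz' => by
      obtain ⟨y, h1, h2, h3⟩ := hpts z hz'
      exact ⟨y, h1, h2, by rw [eval_rv]; exact h3⟩)
    x.1 hq (fun i => ((x.2 i : ℕ) : ℤ)) hnd
    (fun f hf => by rw [hcast]; exact hpt f hf)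
  have hy : ∀ i, Gv x i ≠ 0 := by
    intro i
    unfold Gv
    refine Complex.Gamma_ne_zero_of_re_pos ?_
    have h1 : ((x.2 i : ℂ) / (x.1 : ℂ)) = (((x.2 i : ℝ) / (x.1 : ℝ) : ℝ) : ℂ) := by
      push_cast
      ring
    rw [h1, Complex.ofReal_re]
    have h2 : (0 : ℝ) < x.2 i := by exact_mod_cast (ha i).1
    have h3 : (0 : ℝ) < x.1 := by exact_mod_cast hq
    exact div_pos h2 h3
  refine hz.2 J hJ (spec_rv hP hy J ?_)
  rw [← hJz]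
  congr 2

end Pool.Agent.Helper49.AXQ
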