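import Pool.Agent.Helper49.AXQ.YQ0
import Pool.Agent.Helper49.AXQ.Z11B

/-!
# AXQ, block Y: the point of a tuple of rationals
-/

namespace Pool.Agent.Helper49.AXQ

open MvPolynomial Pool.Agent.Helper94.AXG

/-- the common denominator -/
def qT {k : ℕ} (r : Fin k → ℚ) : ℕ := Finset.univ.lcm (fun i => (r i).den)

/-- the point of a tuple -/
def ptT {k : ℕ} (r : Fin k → ℚ) : Pt k := (qT r, fun i => en (qT r) (r i))

theorem qT_pos {k : ℕ} (r : Fin k → ℚ) : 1 ≤ qT r := by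
  apply Nat.one_le_iff_ne_zero.2
  unfold qT
  rw [Ne, Finset.lcm_eq_zero_iff]
  simp

theorem den_dvd {k : ℕ} (r : Fin k → ℚ) (i : Fin k) : (r i).den ∣ qT r :=
  Finset.dvd_lcm (Finset.mem_univ i)

theorem qT_dvd {k : ℕ} (r : Fin k → ℚ) : qT r ∣ ∏ i, (r i).den :=
  Finset.lcm_dvd fun i hi => Finset.dvd_prod_of_mem _ hi

theorem qT_le {k Q : ℕ} {r : Fin k → ℚ} (h : ∀ i, (r i).den ≤ Q) : qT r ≤ Q ^ k := by
  have h1 : qT r ≤ ∏ i, (r i).den :=
    Nat.le_of_dvd (Finset.prod_pos fun i _ => (r i).den_pos) (qT_dvd r)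
  refine h1.trans ?_
  calc ∏ i, (r i).den ≤ ∏ _i : Fin k, Q := Finset.prod_le_prod' fun i _ => h i
    _ = Q ^ k := by rw [Finset.prod_const, Finset.card_univ, Fintype.card_fin]

theorem xp_ptT {k : ℕ} {r : Fin k → ℚ} (h : ∀ i, 0 < r i) : xp (ptT r) = fun i => (r i : ℂ) := by
  funext i
  exact en_divC (qT_pos r) (h i).le (den_dvd r i)

theorem Gv_ptT {k : ℕ} {r : Fin k → ℚ} (h : ∀ i, 0 < r i) :
    Gv (ptT r) = fun i => Complex.Gamma (r i : ℂ) := by
  funext i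
  have h1 := congrFun (xp_ptT h) i
  unfold xp at h1
  unfold Gv
  rw [h1]

theorem ptT_inj {k : ℕ} {r s : Fin k → ℚ} (hr : ∀ i, 0 < r i) (hs : ∀ i, 0 < s i)
    (h : xp (ptT r) = xp (ptT s)) : r = s := by
  rw [xp_ptT hr, xp_ptT hs] at h
  funext i
  exact_mod_cast congrFun h i

theorem SI_of_StdIndepT {k : ℕ} {r : Fin k → ℚ} (h0 : ∀ i, 0 < r i) (h : StdIndepT r) :
    SI Finset.univ (qT r) (fun i => ((en (qT r) (r i) : ℕ) : ℤ)) := by
  intro m hm i _
  refine h m (fun u hu => ?_) i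
  have hu' : IsCoprime u ((qT r : ℕ) : ℤ) := by
    have h1 : IsCoprime u (∏ i, ((r i).den : ℤ)) := IsCoprime.prod_right fun i _ => hu i
    refine h1.of_isCoprime_of_dvd_right ?_
    have h2 := qT_dvd r
    exact_mod_cast h2
  rw [← hm u hu']
  refine Finset.sum_congr rfl fun j _ => ?_
  rw [Int.cast_natCast, en_div (qT_pos r) (h0 j).le (den_dvd r j)]

theorem adm_ptT {k : ℕ} {r : Fin k → ℚ} (h0 : ∀ i, 0 < r i) (h1 : ∀ i, r i < 1) (h : StdIndepT r) :
    AdmG (ptT r) := by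
  have hlt : ∀ i, 1 ≤ en (qT r) (r i) ∧ en (qT r) (r i) < qT r := fun i =>
    ⟨en_pos (qT_pos r) (h0 i) (den_dvd r i), en_lt (qT_pos r) (h0 i) (h1 i) (den_dvd r i)⟩
  refine ⟨qT_pos r, hlt, ?_⟩
  refine ND_of_SI _ _ (qT_pos r) _ (fun i _ hd => ?_) (SI_of_StdIndepT h0 h)
  have h2 : (qT r) ∣ en (qT r) (r i) := by exact_mod_cast hd
  have h3 := Nat.le_of_dvd (by have := (hlt i).1; omega) h2
  have := (hlt i).2
  omega

/-- standard-independence of a set in terms of its enumeration -/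
theorem stdIndepT_of_set {k : ℕ} {J : Finset ℚ} (h : StdIndep J) (r : Fin k → ℚ)
    (hinj : Function.Injective r) (hr : ∀ x, x ∈ J ↔ ∃ i, r i = x) : StdIndepT r := by
  classical
  intro m hm i
  have key := h (fun x => if hx : ∃ i, r i = x then m hx.choose else 0) (fun u hu => ?_) (r i)
    ((hr _).2 ⟨i, rfl⟩)
  · have hx : ∃ j, r j = r i := ⟨i, rfl⟩
    simp only [dif_pos hx] at key
    rwa [hinj hx.choose_spec] at key
  · rw [← hm u (fun i => hu (r i) ((hr _).2 ⟨i, rfl⟩))]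
    symm
    refine Finset.sum_bij (fun i _ => r i) (fun i _ => (hr _).2 ⟨i, rfl⟩)
      (fun i _ j _ hij => hinj hij) (fun x hx => ?_) (fun i _ => ?_)
    · obtain ⟨i, hi⟩ := (hr x).1 hx
      exact ⟨i, Finset.mem_univ i, hi⟩
    · have hx : ∃ j, r j = r i := ⟨i, rfl⟩
      simp only [dif_pos hx]
      rw [hinj hx.choose_spec]

theorem StdIndep.mono {J J' : Finset ℚ} (h : StdIndep J) (hJ : J' ⊆ J) : StdIndep J' := by
  classical
  intro m hm r hr
  have key := h (fun x => if x ∈ J' then m x else 0) (fun u hu => ?_) r (hJ hr)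
  · simpa [hr] using key
  · rw [← hm u (fun x hx => hu x (hJ hx))]
    symm
    refine Finset.sum_subset_zero_on_sdiff hJ (fun x hx => ?_) (fun x hx => ?_)
    · rw [if_neg (Finset.mem_sdiff.1 hx).2, Int.cast_zero, zero_mul]
    · rw [if_pos hx]

end Pool.Agent.Helper49.AXQ
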