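import Pool.Agent.Helper49.AXQ.Z11

/-! # AXQ-Z12: the uniform theorem -/

namespace Pool.Agent.Helper49.AXQ

open MvPolynomial Filter Topology Pool.Agent.Helper94.AXG

/-- AXG-Z12. Proof. Otherwise for every `n` (`C = n`) there are `Q n ≥ 1`, `P n`, `T n` with
`card (T n) > n (Q n)^ε`. The points `(q, a)` with `q ≤ Q`, `a_i < q` number at most `Q^(k+1)`-ish
(`(Q + 1)^(k+1)`), so `n < (Q n + 1)^(k+1)` and `Q n → ∞`. `Large Q T` with `c = ε`, against `no_large`. -/
theorem uniform_main {k : ℕ} (d : ℕ) {ε : ℝ} (hε : 0 < ε) : ∃ C : ℝ, ∀ Q : ℕ, 1 ≤ Q →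
    ∀ P : MvPolynomial (Fin k) ℂ, P.totalDegree ≤ d →
      ∀ T : Finset (Pt k), Set.InjOn xp (T : Set (Pt k)) → (∀ x ∈ T, AdmG x ∧ x.1 ≤ Q ∧ Zr P x) →
        (T.card : ℝ) ≤ C * (Q : ℝ) ^ ε := by
  classical
  by_contra hcon
  push Not at hcon
  choose Q hQ1 P hP T hinj hT hcard using fun n : ℕ => hcon (n : ℝ)
  have hb : ∀ n, (T n).card ≤ (Q n + 1) * (Q n + 1) ^ k := by
    intro n
    have h1 : T n ⊆ Finset.range (Q n + 1) ×ˢ
        Fintype.piFinset (fun _ : Fin k => Finset.range (Q n + 1)) := by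
      intro x hx
      obtain ⟨⟨_, h2, _⟩, h3, _⟩ := hT n x hx
      rw [Finset.mem_product, Finset.mem_range, Fintype.mem_piFinset]
      refine ⟨by omega, fun i => ?_⟩
      rw [Finset.mem_range]
      have h4 := (h2 i).2
      omega
    refine (Finset.card_le_card h1).trans (le_of_eq ?_)
    rw [Finset.card_product, Finset.card_range, Fintype.card_piFinset, Finset.prod_const,
      Finset.card_range, Finset.card_univ, Fintype.card_fin]
  have hone : ∀ n, (1 : ℝ) ≤ (Q n : ℝ) ^ ε := by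
    intro n
    exact Real.one_le_rpow (by exact_mod_cast hQ1 n) hε.le
  have hn : ∀ n, n < (Q n + 1) * (Q n + 1) ^ k := by
    intro n
    have h1 : (n : ℝ) < ((T n).card : ℝ) := by
      have h2 : (n : ℝ) * 1 ≤ (n : ℝ) * (Q n : ℝ) ^ ε :=
        mul_le_mul_of_nonneg_left (hone n) (Nat.cast_nonneg n)
      linarith [hcard n]
    have h2 : n < (T n).card := by exact_mod_cast h1
    exact h2.trans_le (hb n)
  have hQt : Tendsto Q atTop atTop := by
    rw [tendsto_atTop]
    intro b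
    filter_upwards [eventually_ge_atTop ((b + 1) * (b + 1) ^ k)] with n hn'
    by_contra hlt
    push Not at hlt
    have h1 : (Q n + 1) * (Q n + 1) ^ k ≤ (b + 1) * (b + 1) ^ k :=
      Nat.mul_le_mul (by omega) (Nat.pow_le_pow_left (by omega) k)
    have h2 := hn n
    omega
  refine no_large hQt P hP T hinj hT ⟨ε, hε, ?_⟩
  have h0 : ∀ᶠ n in (UF : Filter ℕ), 1 ≤ n := Nat.hyperfilter_le_atTop (eventually_ge_atTop 1)
  filter_upwards [h0] with n hn1
  have h1 : (1 : ℝ) * (Q n : ℝ) ^ ε ≤ (n : ℝ) * (Q n : ℝ) ^ ε :=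
    mul_le_mul_of_nonneg_right (by exact_mod_cast hn1) (by linarith [hone n])
  linarith [hcard n]

end Pool.Agent.Helper49.AXQ
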