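import Pool.Agent.Helper49.AXQ.YQ1
import Pool.Agent.Helper49.AXQ.Z12
import Pool.Agent.Helper94.AXG.Y6B
import Pool.Agent.Helper94.AXG.Y7

/-!
# AXQ, block Y: counting tuples and minimal sets
-/

namespace Pool.Agent.Helper49.AXQ

open MvPolynomial Pool.Agent.Helper94.AXG

/-- the uniform theorem for tuples of rational numbers -/
theorem uniformT {k : ℕ} (hk : 1 ≤ k) (d : ℕ) {ε : ℝ} (hε : 0 < ε) : ∃ C : ℝ, 0 ≤ C ∧ ∀ Q : ℕ, 1 ≤ Q →
    ∀ P : MvPolynomial (Fin k) ℂ, P.totalDegree ≤ d → ∀ S : Finset (Fin k → ℚ),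
      (∀ r ∈ S, (∀ i, Rat01 Q (r i)) ∧ StdIndepT r ∧ Zr P (ptT r)) → (S.card : ℝ) ≤ C * (Q : ℝ) ^ ε := by
  classical
  have hk0 : (0 : ℝ) < k := by exact_mod_cast hk
  obtain ⟨C, hC⟩ := uniform_main (k := k) d (div_pos hε hk0)
  have hC0 : 0 ≤ C := by
    have h := hC 1 le_rfl 0 (by rw [totalDegree_zero]; exact Nat.zero_le d) ∅ (by simp) (by simp)
    simpa using h
  refine ⟨C, hC0, fun Q hQ P hP S hS => ?_⟩
  have hQk : 1 ≤ Q ^ k := Nat.one_le_pow _ _ (by omega)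
  have hinj : Set.InjOn (fun r : Fin k → ℚ => xp (ptT r)) (S : Set (Fin k → ℚ)) := by
    intro r hr s hs h
    exact ptT_inj (fun i => ((hS r hr).1 i).1) (fun i => ((hS s hs).1 i).1) h
  have hinj' : Set.InjOn (ptT (k := k)) (S : Set (Fin k → ℚ)) := fun r hr s hs h =>
    hinj hr hs (congrArg xp h)
  have h := hC (Q ^ k) hQk P hP (S.image ptT) (by
      intro x hx y hy hxy
      rw [Finset.mem_coe, Finset.mem_image] at hx hy
      obtain ⟨r, hr, rfl⟩ := hx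
      obtain ⟨s, hs, rfl⟩ := hy
      rw [hinj hr hs hxy]) (by
      intro x hx
      rw [Finset.mem_image] at hx
      obtain ⟨r, hr, rfl⟩ := hx
      obtain ⟨h1, h2, h3⟩ := hS r hr
      exact ⟨adm_ptT (fun i => (h1 i).1) (fun i => (h1 i).2.1) h2, qT_le fun i => (h1 i).2.2, h3⟩)
  rw [Finset.card_image_of_injOn hinj'] at h
  refine h.trans (le_of_eq ?_)
  have hQ0 : (0 : ℝ) ≤ Q := Nat.cast_nonneg Q
  rw [Nat.cast_pow, ← Real.rpow_natCast (Q : ℝ) k, ← Real.rpow_mul hQ0, mul_div_cancel₀ _ hk0.ne']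

/-- the enumeration of the numerators -/
theorem enum_en {k q : ℕ} (hq : 1 ≤ q) {J : Finset ℚ} (hk : J.card = k)
    (hJ : ∀ r ∈ J, 0 < r ∧ r.den ∣ q) : ∃ hk' : (J.image (en q)).card = k,
      (fun i : Fin k => (J.image (en q)).orderEmbOfFin hk' i) = fun i => en q (J.orderEmbOfFin hk i) := by
  classical
  have hmono : ∀ r ∈ J, ∀ s ∈ J, r < s → en q r < en q s := by
    intro r hr s hs h
    have hq' : (0 : ℚ) < q := by exact_mod_cast hq
    have h1 : ((en q r : ℕ) : ℚ) < en q s := by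
      rw [en_cast (hJ r hr).1.le (hJ r hr).2, en_cast (hJ s hs).1.le (hJ s hs).2]
      exact mul_lt_mul_of_pos_right h hq'
    exact_mod_cast h1
  have hinj : Set.InjOn (en q) (J : Set ℚ) := by
    intro r hr s hs h
    rw [← en_div hq (hJ r hr).1.le (hJ r hr).2, ← en_div hq (hJ s hs).1.le (hJ s hs).2, h]
  have hk' : (J.image (en q)).card = k := by rw [Finset.card_image_of_injOn hinj, hk]
  refine ⟨hk', ?_⟩
  symm
  refine Finset.orderEmbOfFin_unique hk' (fun i => Finset.mem_image_of_mem _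
    (Finset.orderEmbOfFin_mem J hk i)) ?_
  intro i j hij
  exact hmono _ (Finset.orderEmbOfFin_mem J hk i) _ (Finset.orderEmbOfFin_mem J hk j)
    ((J.orderEmbOfFin hk).strictMono hij)

/-- a minimal dependent set gives a non-degenerate zero -/
theorem zr_of_min {k d H Q : ℕ} {J : Finset ℚ} (hk : J.card = k) (hJ : J ∈ MinQ k d H Q) :
    ∃ P : MvPolynomial (Option (Fin k)) ℤ, Sm d H P ∧
      Zr (piSub P) (ptT (fun i => J.orderEmbOfFin hk i)) := by
  classical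
  obtain ⟨-, hR, -, hdep, hmin⟩ := hJ
  obtain ⟨r, hr⟩ : ∃ r : Fin k → ℚ, r = fun i => J.orderEmbOfFin hk i := ⟨_, rfl⟩
  have hq : 1 ≤ qT r := qT_pos r
  have hJ' : ∀ x ∈ J, 0 < x ∧ x.den ∣ qT r := by
    intro x hx
    refine ⟨(hR x hx).1, ?_⟩
    have h1 : x ∈ Set.range (J.orderEmbOfFin hk) := by
      rw [Finset.range_orderEmbOfFin]
      exact hx
    obtain ⟨i, hi⟩ := h1
    have h2 := den_dvd r i
    rw [hr] at h2
    simp only at h2
    rw [hi] at h2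
    rw [hr]
    exact h2
  obtain ⟨hk', he⟩ := enum_en hq hk hJ'
  obtain ⟨P, hP, h0⟩ := dep_fin hk' (dep_of_depQ hq hJ' hdep)
  refine ⟨P, hP, ?_⟩
  have hz := zr_of_minimal hk' hP h0 (fun J₀ hJ₀ hd => ?_)
  · rw [he] at hz
    rw [← hr]
    unfold ptT
    rw [hr] at hz ⊢
    exact hz
  · refine hmin (J.filter (fun x => en (qT r) x ∈ J₀)) ?_ (depQ_of_dep hq (J' := J₀) (fun n hn => ?_) hd)
    · refine Finset.filter_ssubset.2 ?_
      obtain ⟨n, hn, hn'⟩ := Finset.exists_of_ssubset hJ₀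
      obtain ⟨x, hx, rfl⟩ := Finset.mem_image.1 hn
      exact ⟨x, hx, hn'⟩
    · obtain ⟨x, hx, hxn⟩ := Finset.mem_image.1 (hJ₀.1 hn)
      have e := en_div hq (hJ' x hx).1.le (hJ' x hx).2
      rw [← hxn, e, Finset.mem_filter]
      exact ⟨hx, by rw [hxn]; exact hn⟩

end Pool.Agent.Helper49.AXQ
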