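import Pool.Agent.Helper49.AXQ.YQ2
import Pool.Agent.Helper94.AXG.Y8

/-!
# AXQ, block Y: the counting theorems
-/

namespace Pool.Agent.Helper49.AXQ

open MvPolynomial Pool.Agent.Helper94.AXG

/-- a finite set which contains the rational numbers of `(0, 1)` with denominator `≤ Q` -/
def ratSet (Q : ℕ) : Finset ℚ :=
  (Finset.range (Q + 1) ×ˢ Finset.range (Q + 1)).image (fun p => (p.1 : ℚ) / p.2)

theorem mem_ratSet {Q : ℕ} {r : ℚ} (h : Rat01 Q r) : r ∈ ratSet Q := by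
  obtain ⟨h0, h1, h2⟩ := h
  unfold ratSet
  rw [Finset.mem_image]
  have hnum : ((r.num.natAbs : ℕ) : ℤ) = r.num := Int.natAbs_of_nonneg (Rat.num_nonneg.2 h0.le)
  have hlt : r.num < r.den := Rat.lt_one_iff_num_lt_denom.2 h1
  refine ⟨(r.num.natAbs, r.den), ?_, ?_⟩
  · rw [Finset.mem_product, Finset.mem_range, Finset.mem_range]
    constructor <;> simp only <;> omega
  · simp only
    rw [← Int.cast_natCast, hnum]
    exact Rat.num_div_den r

theorem card_ratSet {Q : ℕ} (hQ : 1 ≤ Q) : (ratSet Q).card ≤ 4 * Q ^ 2 := by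
  unfold ratSet
  refine Finset.card_image_le.trans ?_
  rw [Finset.card_product, Finset.card_range]
  nlinarith

open Classical in
/-- the enumeration of a set of cardinality `k` -/
noncomputable def tup (k : ℕ) (J : Finset ℚ) : Fin k → ℚ :=
  if h : J.card = k then fun i => J.orderEmbOfFin h i else 0

theorem tup_range {k : ℕ} {J : Finset ℚ} (h : J.card = k) (x : ℚ) : x ∈ J ↔ ∃ i, tup k J i = x := by
  unfold tup
  rw [dif_pos h]
  have h1 := Finset.range_orderEmbOfFin J h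
  rw [← Finset.mem_coe, ← h1]
  rfl

theorem tup_injective {k : ℕ} {J : Finset ℚ} (h : J.card = k) : Function.Injective (tup k J) := by
  unfold tup
  rw [dif_pos h]
  exact (J.orderEmbOfFin h).injective

theorem tup_injOn {k : ℕ} {J J' : Finset ℚ} (h : J.card = k) (h' : J'.card = k)
    (he : tup k J = tup k J') : J = J' := by
  ext x
  rw [tup_range h, tup_range h', he]

theorem finite_of_rat {Q : ℕ} {A : Set (Finset ℚ)} (h : ∀ J ∈ A, ∀ r ∈ J, Rat01 Q r) : A.Finite := by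
  refine Set.Finite.subset (Finset.finite_toSet (ratSet Q).powerset) fun J hJ => ?_
  rw [Finset.mem_coe, Finset.mem_powerset]
  exact fun r hr => mem_ratSet (h J hJ r hr)

theorem minQ_finite (k d H Q : ℕ) : (MinQ k d H Q).Finite := finite_of_rat (Q := Q) fun J hJ => hJ.2.1

theorem allQ_finite (k d H Q : ℕ) : (AllQ k d H Q).Finite := finite_of_rat (Q := Q) fun J hJ => hJ.2.1

theorem not_depQ_empty (d H : ℕ) : ¬ DepQ d H ∅ := by
  intro h
  have h1 : Dep d H 1 ∅ := by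
    have h2 := dep_of_depQ (q := 1) le_rfl (J := ∅) (by simp) h
    rwa [Finset.image_empty] at h2
  have h3 : ((1, ∅) : ℕ × Finset ℕ) ∈ MinSet 0 d H 1 := by
    refine ⟨le_rfl, le_rfl, rfl, ⟨by simp, by simp⟩, h1, fun J' hJ' => ?_⟩
    exact absurd hJ' (Finset.not_ssubset_empty J')
  rw [minSet_zero] at h3
  exact h3

theorem count_pos {k : ℕ} (hk : 1 ≤ k) (d : ℕ) {ε : ℝ} (hε : 0 < ε) : ∃ C : ℝ, 0 ≤ C ∧ ∀ Q H : ℕ, 1 ≤ Q →
    ((MinQ k d H Q).ncard : ℝ) ≤ ((2 * H + 1 : ℕ) : ℝ) ^ ((d + 1) ^ (k + 1)) * (C * (Q : ℝ) ^ ε) := by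
  classical
  obtain ⟨C, hC0, hC⟩ := uniformT hk d hε
  refine ⟨C, hC0, fun Q H hQ => ?_⟩
  obtain ⟨hPf, hPc⟩ := card_polys k d H
  obtain ⟨PP, hPP⟩ : ∃ PP, PP = hPf.toFinset := ⟨_, rfl⟩
  obtain ⟨M, hM⟩ : ∃ M, M = (minQ_finite k d H Q).toFinset := ⟨_, rfl⟩
  have hMm : ∀ J, J ∈ M ↔ J ∈ MinQ k d H Q := fun J => by rw [hM, Set.Finite.mem_toFinset]
  have hMc : (MinQ k d H Q).ncard = M.card := by
    rw [hM]
    exact Set.ncard_eq_toFinset_card _ _
  have hPPc : PP.card ≤ (2 * H + 1) ^ ((d + 1) ^ (k + 1)) := by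
    rw [hPP]
    rwa [Set.ncard_eq_toFinset_card _ hPf] at hPc
  have hsub : M ⊆ PP.biUnion (fun P => M.filter (fun J => Zr (piSub P) (ptT (tup k J)))) := by
    intro J hJ
    have hJ' := (hMm J).1 hJ
    obtain ⟨P, hP, hz⟩ := zr_of_min hJ'.1 hJ'
    rw [Finset.mem_biUnion]
    refine ⟨P, ?_, Finset.mem_filter.2 ⟨hJ, ?_⟩⟩
    · rw [hPP, Set.Finite.mem_toFinset]
      exact ⟨hP.2.1, hP.2.2⟩
    · unfold tup
      rw [dif_pos hJ'.1]
      exact hz
  have hone : ∀ P ∈ PP, ((M.filter (fun J => Zr (piSub P) (ptT (tup k J)))).card : ℝ) ≤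
      C * (Q : ℝ) ^ ε := by
    intro P hP
    rw [hPP, Set.Finite.mem_toFinset] at hP
    have hinj : Set.InjOn (tup k) ((M.filter (fun J => Zr (piSub P) (ptT (tup k J))) : Finset (Finset ℚ)) :
        Set (Finset ℚ)) := by
      intro J hJ J' hJ' he
      rw [Finset.mem_coe, Finset.mem_filter] at hJ hJ'
      exact tup_injOn ((hMm J).1 hJ.1).1 ((hMm J').1 hJ'.1).1 he
    rw [← Finset.card_image_of_injOn hinj]
    refine hC Q hQ (piSub P) ((piSub_deg P).trans hP.1) _ fun r hr => ?_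
    obtain ⟨J, hJ, rfl⟩ := Finset.mem_image.1 hr
    rw [Finset.mem_filter] at hJ
    obtain ⟨hJ1, hJ2⟩ := hJ
    obtain ⟨hc, hR, hS, -, -⟩ := (hMm J).1 hJ1
    refine ⟨fun i => hR _ ((tup_range hc _).2 ⟨i, rfl⟩), ?_, hJ2⟩
    exact stdIndepT_of_set hS _ (tup_injective hc) (tup_range hc)
  rw [hMc]
  have h1 : (M.card : ℝ) ≤ ∑ P ∈ PP, ((M.filter (fun J => Zr (piSub P) (ptT (tup k J)))).card : ℝ) := by
    have h2 := (Finset.card_le_card hsub).trans Finset.card_biUnion_le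
    exact_mod_cast h2
  refine h1.trans ((Finset.sum_le_sum hone).trans ?_)
  rw [Finset.sum_const, nsmul_eq_mul]
  refine mul_le_mul_of_nonneg_right ?_ (by positivity)
  exact_mod_cast hPPc

/-- the number of minimal dependent sets -/
theorem count_minQ (k d : ℕ) {ε : ℝ} (hε : 0 < ε) : ∃ (C : ℝ) (B : ℕ), 0 ≤ C ∧ ∀ Q H : ℕ, 1 ≤ Q → 1 ≤ H →
    ((MinQ k d H Q).ncard : ℝ) ≤ C * (H : ℝ) ^ B * (Q : ℝ) ^ ε := by
  rcases Nat.eq_zero_or_pos k with hk | hk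
  · subst hk
    refine ⟨0, 0, le_rfl, fun Q H _ _ => ?_⟩
    have h : MinQ 0 d H Q = ∅ := by
      ext J
      refine ⟨fun hJ => ?_, fun hJ => absurd hJ (Set.notMem_empty J)⟩
      have h1 : J = ∅ := Finset.card_eq_zero.1 hJ.1
      have h2 := hJ.2.2.2.1
      rw [h1] at h2
      exact absurd h2 (not_depQ_empty d H)
    rw [h, Set.ncard_empty]
    simp
  · obtain ⟨C, hC0, hC⟩ := count_pos hk d hε
    obtain ⟨B, hB⟩ : ∃ B, B = (d + 1) ^ (k + 1) := ⟨_, rfl⟩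
    refine ⟨3 ^ B * C, B, by positivity, fun Q H hQ hH => ?_⟩
    have h := hC Q H hQ
    rw [← hB] at h
    refine h.trans ?_
    have hH' : (1 : ℝ) ≤ H := by exact_mod_cast hH
    have h1 : ((2 * H + 1 : ℕ) : ℝ) ^ B ≤ 3 ^ B * (H : ℝ) ^ B := by
      rw [← mul_pow]
      refine pow_le_pow_left₀ (Nat.cast_nonneg _) ?_ B
      push_cast
      linarith
    calc ((2 * H + 1 : ℕ) : ℝ) ^ B * (C * (Q : ℝ) ^ ε)
        ≤ (3 ^ B * (H : ℝ) ^ B) * (C * (Q : ℝ) ^ ε) :=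
          mul_le_mul_of_nonneg_right h1 (by positivity)
      _ = 3 ^ B * C * (H : ℝ) ^ B * (Q : ℝ) ^ ε := by ring

theorem exists_min {d H : ℕ} {J : Finset ℚ} (h : DepQ d H J) :
    ∃ J', J' ⊆ J ∧ DepQ d H J' ∧ ∀ J'', J'' ⊂ J' → ¬ DepQ d H J'' := by
  classical
  induction hn : J.card using Nat.strong_induction_on generalizing J with
  | _ n ih =>
  by_cases hc : ∃ J'', J'' ⊂ J ∧ DepQ d H J''
  · obtain ⟨J'', h1, h2⟩ := hc
    obtain ⟨J', h3, h4, h5⟩ := ih J''.card (by rw [← hn]; exact Finset.card_lt_card h1) h2 rfl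
    exact ⟨J', h3.trans h1.1, h4, h5⟩
  · push Not at hc
    exact ⟨J, Finset.Subset.refl J, h, hc⟩

theorem exists_minQ {k d H Q : ℕ} {J : Finset ℚ} (hJ : J ∈ AllQ k d H Q) :
    ∃ J', J' ⊆ J ∧ 1 ≤ J'.card ∧ J'.card ≤ k ∧ J' ∈ MinQ J'.card d H Q := by
  obtain ⟨h1, h2, h3, h4⟩ := hJ
  obtain ⟨J', h5, h6, h7⟩ := exists_min h4
  refine ⟨J', h5, ?_, ?_, rfl, fun r hr => h2 r (h5 hr), h3.mono h5, h6, h7⟩
  · rw [Nat.one_le_iff_ne_zero, Ne, Finset.card_eq_zero]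
    intro h
    rw [h] at h6
    exact not_depQ_empty d H h6
  · rw [← h1]
    exact Finset.card_le_card h5

/-- the number of dependent sets -/
theorem count_allQ (k d : ℕ) {ε : ℝ} (hε : 0 < ε) : ∃ (C : ℝ) (B : ℕ), 0 ≤ C ∧ ∀ Q H : ℕ, 1 ≤ Q → 1 ≤ H →
    ((AllQ k d H Q).ncard : ℝ) ≤ C * (H : ℝ) ^ B * (Q : ℝ) ^ (2 * ((k : ℝ) - 1) + ε) := by
  classical
  choose C B hC0 hC using fun j : ℕ => count_minQ j d hε
  refine ⟨∑ j ∈ Finset.Icc 1 k, C j * 4 ^ (k - 1), ∑ j ∈ Finset.Icc 1 k, B j,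
    Finset.sum_nonneg fun j _ => mul_nonneg (hC0 j) (by positivity), fun Q H hQ hH => ?_⟩
  have hQ' : (1 : ℝ) ≤ Q := by exact_mod_cast hQ
  have hQ0 : (0 : ℝ) < Q := by linarith
  have hH' : (1 : ℝ) ≤ H := by exact_mod_cast hH
  obtain ⟨A, hA⟩ : ∃ A, A = (allQ_finite k d H Q).toFinset := ⟨_, rfl⟩
  obtain ⟨M, hM⟩ : ∃ M : ℕ → Finset (Finset ℚ), M = fun j => (minQ_finite j d H Q).toFinset := ⟨_, rfl⟩
  have hAc : (AllQ k d H Q).ncard = A.card := by
    rw [hA]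
    exact Set.ncard_eq_toFinset_card _ _
  have hMc : ∀ j, (MinQ j d H Q).ncard = (M j).card := by
    intro j
    rw [hM]
    exact Set.ncard_eq_toFinset_card _ _
  have hsub : A ⊆ (Finset.Icc 1 k).biUnion (fun j =>
      (M j ×ˢ (ratSet Q).powersetCard (k - j)).image (fun p => p.1 ∪ p.2)) := by
    intro J hJ
    rw [hA, Set.Finite.mem_toFinset] at hJ
    obtain ⟨J', h1, h2, h3, h4⟩ := exists_minQ hJ
    rw [Finset.mem_biUnion]
    refine ⟨J'.card, Finset.mem_Icc.2 ⟨h2, h3⟩, ?_⟩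
    rw [Finset.mem_image]
    refine ⟨(J', J \ J'), ?_, Finset.union_sdiff_of_subset h1⟩
    rw [Finset.mem_product, Finset.mem_powersetCard]
    refine ⟨?_, fun r hr => mem_ratSet (hJ.2.1 r (Finset.mem_sdiff.1 hr).1), ?_⟩
    · rw [hM]
      exact (Set.Finite.mem_toFinset _).2 h4
    · rw [Finset.card_sdiff_of_subset h1, hJ.1]
  have hone : ∀ j ∈ Finset.Icc 1 k,
      (((M j ×ˢ (ratSet Q).powersetCard (k - j)).image (fun p => p.1 ∪ p.2)).card : ℝ) ≤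
        (C j * 4 ^ (k - 1)) * ((H : ℝ) ^ (∑ j ∈ Finset.Icc 1 k, B j) *
          (Q : ℝ) ^ (2 * ((k : ℝ) - 1) + ε)) := by
    intro j hj
    obtain ⟨hj1, hj2⟩ := Finset.mem_Icc.1 hj
    have h1 : (((M j ×ˢ (ratSet Q).powersetCard (k - j)).image (fun p => p.1 ∪ p.2)).card : ℝ) ≤
        ((M j).card : ℝ) * ((4 * Q ^ 2 : ℕ) : ℝ) ^ (k - j) := by
      have h2 := Finset.card_image_le (s := M j ×ˢ (ratSet Q).powersetCard (k - j))
        (f := fun p => p.1 ∪ p.2)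
      rw [Finset.card_product, Finset.card_powersetCard] at h2
      have h3 : ((ratSet Q).card).choose (k - j) ≤ (4 * Q ^ 2) ^ (k - j) :=
        (Nat.choose_le_pow _ _).trans (Nat.pow_le_pow_left (card_ratSet hQ) _)
      have h4 := h2.trans (Nat.mul_le_mul_left _ h3)
      exact_mod_cast h4
    have h5 : ((4 * Q ^ 2 : ℕ) : ℝ) ^ (k - j) ≤ 4 ^ (k - 1) * (Q : ℝ) ^ (2 * ((k : ℝ) - 1)) := by
      have h6 : (1 : ℝ) ≤ ((4 * Q ^ 2 : ℕ) : ℝ) := by
        have : 1 ≤ 4 * Q ^ 2 := by nlinarith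
        exact_mod_cast this
      refine (pow_le_pow_right₀ h6 (Nat.sub_le_sub_left hj1 k)).trans (le_of_eq ?_)
      have h7 : 2 * ((k : ℝ) - 1) = ((2 * (k - 1) : ℕ) : ℝ) := by
        rw [Nat.cast_mul, Nat.cast_sub (by omega)]
        push_cast
        ring
      rw [h7, Real.rpow_natCast]
      push_cast
      rw [mul_pow, ← pow_mul]
    have h8 : ((M j).card : ℝ) ≤ C j * (H : ℝ) ^ (∑ j ∈ Finset.Icc 1 k, B j) * (Q : ℝ) ^ ε := by
      rw [← hMc]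
      refine (hC j Q H hQ hH).trans ?_
      have h9 : (H : ℝ) ^ B j ≤ (H : ℝ) ^ (∑ j ∈ Finset.Icc 1 k, B j) :=
        pow_le_pow_right₀ hH' (Finset.single_le_sum (f := B) (fun _ _ => Nat.zero_le _) hj)
      exact mul_le_mul_of_nonneg_right (mul_le_mul_of_nonneg_left h9 (hC0 j)) (by positivity)
    refine h1.trans ?_
    calc ((M j).card : ℝ) * ((4 * Q ^ 2 : ℕ) : ℝ) ^ (k - j)
        ≤ (C j * (H : ℝ) ^ (∑ j ∈ Finset.Icc 1 k, B j) * (Q : ℝ) ^ ε) *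
          (4 ^ (k - 1) * (Q : ℝ) ^ (2 * ((k : ℝ) - 1))) :=
          mul_le_mul h8 h5 (by positivity) (mul_nonneg (mul_nonneg (hC0 j) (by positivity))
            (by positivity))
      _ = _ := by
        rw [Real.rpow_add hQ0]
        ring
  rw [hAc]
  have h1 : (A.card : ℝ) ≤ ∑ j ∈ Finset.Icc 1 k,
      (((M j ×ˢ (ratSet Q).powersetCard (k - j)).image (fun p => p.1 ∪ p.2)).card : ℝ) := by
    have h2 := (Finset.card_le_card hsub).trans Finset.card_biUnion_le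
    exact_mod_cast h2
  refine h1.trans ((Finset.sum_le_sum hone).trans (le_of_eq ?_))
  rw [← Finset.sum_mul]
  ring

end Pool.Agent.Helper49.AXQ
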