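import Pool.Agent.Helper94.AXG.Z9
import Pool.Agent.Helper94.AXG.Z11A
import Pool.Agent.Helper49.AXQ.Z11B
import Pool.Agent.Helper94.AXG.H12

/-! # AXQ-Z11 -/

namespace Pool.Agent.Helper49.AXQ

open MvPolynomial Filter Topology Pool.Agent.Helper94.AXG

private theorem z11_re {k : ℕ} {x : Pt k} (hx : AdmG x) (i : Fin k) :
    Complex.Gamma (xp x i) ≠ 0 := by
  have h1 : (0 : ℝ) < x.1 := by exact_mod_cast hx.1
  have h2 : (0 : ℝ) < x.2 i := by exact_mod_cast (hx.2.1 i).1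
  have h3 : xp x i = (((x.2 i : ℝ) / (x.1 : ℝ) : ℝ) : ℂ) := by
    unfold xp
    push_cast
    rfl
  apply Complex.Gamma_ne_zero_of_re_pos
  rw [h3, Complex.ofReal_re]
  exact div_pos h2 h1

private theorem z11_nonempty {k : ℕ} {Q : ℕ → ℕ} (hQ : Tendsto Q atTop atTop)
    {T : ℕ → Finset (Pt k)} (hT : Large Q T) : ∀ᶠ i in (UF : Filter ℕ), (T i).Nonempty := by
  obtain ⟨c, hc, h⟩ := hT
  have h1 : ∀ᶠ i in (UF : Filter ℕ), 1 ≤ Q i :=
    (hQ.mono_left Nat.hyperfilter_le_atTop).eventually_ge_atTop 1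
  filter_upwards [h, h1] with i h2 h3
  have h4 : (0 : ℝ) < (Q i : ℝ) ^ c := Real.rpow_pos_of_pos (by exact_mod_cast h3) _
  have h5 : (0 : ℝ) < (T i).card := lt_of_lt_of_le h4 h2
  exact Finset.card_pos.1 (by exact_mod_cast h5)

private theorem z11_aux {r n d : ℕ} {Q : ℕ → ℕ} (hQ : Tendsto Q atTop atTop)
    {T : ℕ → Finset (Pt (r + n))} {A B : Matrix (Fin (r + n)) (Fin (r + n)) ℤ}
    {F : Fin (r + n) → ℕ → MvPolynomial (Fin (r + n)) ℂ}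
    {l : ℕ} {L : Fin l → ℕ → MvPolynomial (Fin (r + n)) ℂ}
    (hA : Alg Q T r (Nat.le_add_right r n) A B F l L)
    (P : ℕ → MvPolynomial (Fin (r + n)) ℂ) (hP : ∀ i, (P i).totalDegree ≤ d)
    (hP1 : ∀ i, ∀ ν, ‖coeff ν (P i)‖ ≤ 1)
    (hT : ∀ i, ∀ x ∈ T i, AdmG x ∧ x.1 ≤ Q i ∧ Zr (P i) x) : False := by
  have h1 : ∀ i, ∀ x ∈ T i, 1 ≤ x.1 ∧ x.1 ≤ Q i ∧ ∀ j, x.2 j ≤ x.1 := fun i x hx =>
    ⟨(hT i x hx).1.1, (hT i x hx).2.1, fun j => ((hT i x hx).1.2.1 j).2.le⟩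
  have h2 : ∀ i, ∀ x ∈ T i, gam (cf d (P i)) (xp x) = 0 := fun i x hx =>
    gam_zero (hP i) (z11_re (hT i x hx).1) (hT i x hx).2.2.1
  have h3 := over_open hQ hA h1 d P hP1 h2
  obtain ⟨i, h4, h5, h6, h7, h8⟩ := (h3.and (hA.intg.and (hA.dich.and (hA.Lvan.and
    (z11_nonempty hQ hA.large))))).exists
  obtain ⟨Δ, hΔ, hne, hpts⟩ := h4
  obtain ⟨x, hx⟩ := h8
  refine level_contra hA.r_pos (rows (Nat.le_add_right r n) A) (IdL L i) h5 h6 (hP i) hΔ hne hpts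
    (hT i x hx).1 (hT i x hx).2.2 ?_
  intro f hf
  have hle : IdL L i ≤ RingHom.ker (eval (xp x)) := by
    refine Ideal.span_le.2 ?_
    rintro _ ⟨j, rfl⟩
    exact (RingHom.mem_ker (f := eval (xp x))).2 (h7 j x hx)
  exact (RingHom.mem_ker (f := eval (xp x))).1 (hle hf)

/-- AXG-Z11d. Proof. Suppose `Large Q S`. Scale `P n` (`scale`), so all coefficients are `≤ 1`. `alg_main`
(injectivity by `hinj`) gives `T, r, hrk, A, B, F, l, L`; `k = r + n` (`Nat.exists_eq_add_of_le`). For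
`x ∈ T i`: `gam (cf d (P i)) (xp x) = 0` by `gam_zero`. `over_open` and `level_contra` at a level `i` at which
`T i` is nonempty and everything holds. -/
theorem no_large {k d : ℕ} {Q : ℕ → ℕ} (hQ : Tendsto Q atTop atTop)
    (P : ℕ → MvPolynomial (Fin k) ℂ) (hP : ∀ n, (P n).totalDegree ≤ d) (S : ℕ → Finset (Pt k))
    (hinj : ∀ n, Set.InjOn xp (S n : Set (Pt k)))
    (hS : ∀ n, ∀ x ∈ S n, AdmG x ∧ x.1 ≤ Q n ∧ Zr (P n) x) : ¬ Large Q S := by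
  intro hL
  choose c hc0 hc1 hc2 using fun n => scale (P n)
  obtain ⟨T, r, hrk, A, B, F, l, L, hTS, hA⟩ := alg_main Q hQ S hL hinj
  obtain ⟨n, rfl⟩ := Nat.exists_eq_add_of_le hrk
  refine z11_aux (d := d) hQ hA (fun i => C (c i) * P i) (fun i => ?_) (fun i => hc1 i)
    (fun i x hx => ?_)
  · refine (totalDegree_mul _ _).trans ?_
    rw [totalDegree_C, zero_add]
    exact hP i
  · have h1 := hS i x (hTS i hx)
    exact ⟨h1.1, h1.2.1, hc2 i x h1.2.2⟩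

end Pool.Agent.Helper49.AXQ
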